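import Mathlib

set_option autoImplicit false

namespace Pool.Agent.Lib.MP0b15c0

noncomputable section

open Finset Real

lemma two_rpow_ge {y : ℝ} (hy : 0 ≤ y) : 1 + y ≤ 2 * (2 : ℝ) ^ y := by
  have h1 : (1 : ℝ) ≤ (2 : ℝ) ^ y := Real.one_le_rpow (by norm_num) hy
  have h2 : y ≤ (2 : ℝ) ^ y := by
    have h3 : 1 + y * Real.log 2 ≤ (2 : ℝ) ^ y := by
      rw [Real.rpow_def_of_pos (by norm_num)]
      have := Real.add_one_le_exp (Real.log 2 * y)
      linarith
    have h4 := Real.log_two_gt_d9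
    have h5 : y ≤ Real.exp (y * Real.log 2) := by
      have h6 := Real.quadratic_le_exp_of_nonneg (x := y * Real.log 2) (by positivity)
      nlinarith [sq_nonneg (y * Real.log 2 - 1), mul_nonneg hy hy]
    rw [Real.rpow_def_of_pos (by norm_num), mul_comm]
    exact h5
  linarith

lemma prime_pow_bound {r p a : ℕ} (hr : 1 ≤ r) (hp : p.Prime) :
    ((a : ℝ) + 1) ≤ (if p < 2 ^ r then 2 * (r : ℝ) else 1) * ((p ^ a : ℕ) : ℝ) ^ ((1 : ℝ) / r) := by
  have hr0 : (0 : ℝ) < r := by exact_mod_cast hr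
  have hr1 : (1 : ℝ) ≤ r := by exact_mod_cast hr
  split_ifs with h
  · have h1 : (2 : ℝ) ^ ((a : ℝ) / r) ≤ ((p ^ a : ℕ) : ℝ) ^ ((1 : ℝ) / r) := by
      have : (2 : ℝ) ^ ((a : ℝ) / r) = ((2 : ℝ) ^ a) ^ ((1 : ℝ) / r) := by
        rw [← Real.rpow_natCast, ← Real.rpow_mul (by norm_num)]
        congr 1
        field_simp
      rw [this]
      apply Real.rpow_le_rpow (by positivity) _ (by positivity)
      push_cast
      gcongr
      exact_mod_cast hp.two_le
    have h2 := two_rpow_ge (y := (a : ℝ) / r) (by positivity)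
    have h3 : (r : ℝ) * (1 + (a : ℝ) / r) = r + a := by field_simp
    calc (a : ℝ) + 1 ≤ r * (1 + (a : ℝ) / r) := by rw [h3]; linarith
      _ ≤ r * (2 * (2 : ℝ) ^ ((a : ℝ) / r)) := by gcongr
      _ = 2 * r * (2 : ℝ) ^ ((a : ℝ) / r) := by ring
      _ ≤ _ := by gcongr
  · rw [one_mul]
    rw [not_lt] at h
    have h1 : (2 : ℝ) ^ a ≤ ((p ^ a : ℕ) : ℝ) ^ ((1 : ℝ) / r) := by
      have : (2 : ℝ) ^ a = (((2 : ℝ) ^ r) ^ a) ^ ((1 : ℝ) / r) := by
        rw [← pow_mul, mul_comm r a, pow_mul, ← Real.rpow_natCast ((2 : ℝ) ^ a) r,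
          ← Real.rpow_mul (by positivity)]
        rw [mul_one_div_cancel hr0.ne', Real.rpow_one]
      rw [this]
      apply Real.rpow_le_rpow (by positivity) _ (by positivity)
      push_cast
      gcongr
      exact_mod_cast h
    have h2 : (a : ℝ) + 1 ≤ (2 : ℝ) ^ a := by
      have : a + 1 ≤ 2 ^ a := Nat.lt_two_pow_self
      exact_mod_cast this
    linarith

lemma divisor_bound_aux {r : ℕ} (hr : 1 ≤ r) (n : ℕ) (hn : n ≠ 0) :
    ((n.divisors.card : ℕ) : ℝ) ≤
      (∏ p ∈ n.primeFactors, (if p < 2 ^ r then 2 * (r : ℝ) else 1)) * (n : ℝ) ^ ((1 : ℝ) / r) := by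
  induction n using Nat.recOnPosPrimePosCoprime with
  | prime_pow p a hp ha =>
    rw [Nat.divisors_prime_pow hp, Finset.card_map, Finset.card_range,
      Nat.primeFactors_prime_pow ha.ne' hp, Finset.prod_singleton]
    push_cast
    have := prime_pow_bound (a := a) hr hp
    push_cast at this
    exact this
  | zero => exact absurd rfl hn
  | one => simp
  | coprime a b ha hb hab iha ihb =>
    have ha0 : a ≠ 0 := by omega
    have hb0 : b ≠ 0 := by omega
    rw [hab.card_divisors_mul, hab.primeFactors_mul, Finset.prod_union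
      (Nat.Coprime.disjoint_primeFactors hab)]
    push_cast
    rw [Real.mul_rpow (by positivity) (by positivity)]
    have h1 := iha ha0
    have h2 := ihb hb0
    have h3 : 0 ≤ (∏ p ∈ a.primeFactors, (if p < 2 ^ r then 2 * (r : ℝ) else 1)) *
        (a : ℝ) ^ ((1 : ℝ) / r) := le_trans (by positivity) h1
    calc ((a.divisors.card : ℕ) : ℝ) * ((b.divisors.card : ℕ) : ℝ)
        ≤ ((∏ p ∈ a.primeFactors, (if p < 2 ^ r then 2 * (r : ℝ) else 1)) * (a : ℝ) ^ ((1 : ℝ) / r))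
          * ((∏ p ∈ b.primeFactors, (if p < 2 ^ r then 2 * (r : ℝ) else 1)) * (b : ℝ) ^ ((1 : ℝ) / r)) := by
          gcongr
      _ = _ := by ring

/-- the divisor bound -/
theorem divisor_bound {ε : ℝ} (hε : 0 < ε) : ∃ C : ℝ, 0 < C ∧ ∀ n : ℕ, n ≠ 0 →
    ((n.divisors.card : ℕ) : ℝ) ≤ C * (n : ℝ) ^ ε := by
  obtain ⟨r0, hr0⟩ := exists_nat_ge (1 / ε)
  obtain ⟨r, hr⟩ : ∃ r, r = r0 + 1 := ⟨_, rfl⟩
  have hr1 : 1 ≤ r := by omega
  have hrpos : (0 : ℝ) < r := by exact_mod_cast hr1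
  have hrε : (1 : ℝ) / r ≤ ε := by
    rw [div_le_iff₀ hrpos]
    rw [div_le_iff₀ hε] at hr0
    rw [hr]; push_cast
    nlinarith
  refine ⟨(2 * (r : ℝ)) ^ (2 ^ r), by positivity, fun n hn => ?_⟩
  refine le_trans (divisor_bound_aux hr1 n hn) ?_
  have hn1 : (1 : ℝ) ≤ n := by exact_mod_cast Nat.one_le_iff_ne_zero.2 hn
  have h2r : (1 : ℝ) ≤ 2 * r := by
    have : (1 : ℝ) ≤ r := by exact_mod_cast hr1
    linarith
  have h1 : ∏ p ∈ n.primeFactors, (if p < 2 ^ r then 2 * (r : ℝ) else 1) ≤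
      (2 * (r : ℝ)) ^ (2 ^ r) := by
    rw [← Finset.prod_filter]
    rw [Finset.prod_const]
    apply pow_le_pow_right₀ h2r
    calc (n.primeFactors.filter (fun p => p < 2 ^ r)).card ≤ (Finset.range (2 ^ r)).card := by
          apply Finset.card_le_card
          intro p hp
          rw [Finset.mem_filter] at hp
          exact Finset.mem_range.2 hp.2
      _ = 2 ^ r := Finset.card_range _
  have h2 : (n : ℝ) ^ ((1 : ℝ) / r) ≤ (n : ℝ) ^ ε := Real.rpow_le_rpow_of_exponent_le hn1 hrε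
  gcongr

end

end Pool.Agent.Lib.MP0b15c0
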