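import Pool.Agent.Lib.MP_0b15c0_nt.Main

set_option autoImplicit false

namespace Pool.Agent.Lib.MP0b15c0

open Finset Real

lemma uniq_aux {j d j' d' : ℕ} (hd : Odd d) (hjj : j ≤ j') (h : 2 ^ j * d = 2 ^ j' * d') :
    j = j' ∧ d = d' := by
  obtain ⟨k, rfl⟩ := Nat.exists_eq_add_of_le hjj
  rw [pow_add, mul_assoc] at h
  have h2 : d = 2 ^ k * d' := Nat.eq_of_mul_eq_mul_left (by positivity) h
  rcases Nat.eq_zero_or_pos k with hk | hk
  · subst hk
    simp at h2
    exact ⟨by simp, h2⟩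
  · exfalso
    have : 2 ∣ d := by
      rw [h2]
      exact Dvd.dvd.mul_right (dvd_pow_self 2 (by omega)) d'
    rw [Nat.odd_iff] at hd
    omega

lemma uniq {j d j' d' : ℕ} (hd : Odd d) (hd' : Odd d') (h : 2 ^ j * d = 2 ^ j' * d') :
    j = j' ∧ d = d' := by
  rcases le_total j j' with hjj | hjj
  · exact uniq_aux hd hjj h
  · have := uniq_aux hd' hjj h.symm
    exact ⟨this.1.symm, this.2.symm⟩

/-- passing the strong test -/
def Pass (n j d b : ℕ) : Prop :=
  (b : ZMod n) ^ d = 1 ∨ ∃ i : ℕ, i < j ∧ (b : ZMod n) ^ (2 ^ i * d) = -1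

lemma pass_of_not {n j d b : ℕ} (hjd : n - 1 = 2 ^ j * d) (hd : Odd d)
    (h : ¬ ∀ j d : ℕ, n - 1 = 2 ^ j * d → Odd d →
          ((b : ZMod n) ^ d ≠ 1 ∧
            ∀ i : ℕ, i < j → (b : ZMod n) ^ (2 ^ i * d) ≠ -1)) : Pass n j d b := by
  by_contra hcon
  apply h
  intro j' d' hjd' hd'
  obtain ⟨e1, e2⟩ := uniq hd hd' (hjd ▸ hjd')
  subst e1 e2
  unfold Pass at hcon
  push Not at hcon
  exact hcon

/-- transfer to a divisor -/
lemma pass_dvd {n m j d b : ℕ} (hm : m ∣ n) (h : Pass n j d b) : Pass m j d b := by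
  unfold Pass at *
  have hf : (ZMod.castHom hm (ZMod m)) (b : ZMod n) = (b : ZMod m) := by simp
  rcases h with h | ⟨i, hi, h⟩
  · left
    have := congrArg (ZMod.castHom hm (ZMod m)) h
    rw [map_pow, map_one, hf] at this
    exact this
  · right
    refine ⟨i, hi, ?_⟩
    have := congrArg (ZMod.castHom hm (ZMod m)) h
    rw [map_pow, map_neg, map_one, hf] at this
    exact this

/-- key order statement: if `b` passes, then `b ^ (2^{v₂(p-1)} d) = 1` modulo every prime factor. -/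
lemma pass_pow {n p q j d b : ℕ} (hp : p.Prime) (hp2 : p ≠ 2)
    (hpn : p ∣ n) (hqn : q ∣ n) (hd : Odd d) (h : Pass n j d b) :
    (b : ZMod q) ^ (2 ^ padicValNat 2 (p - 1) * d) = 1 := by
  have : Fact p.Prime := ⟨hp⟩
  rcases h with h | ⟨i, hi, h⟩
  · have hf : (ZMod.castHom hqn (ZMod q)) (b : ZMod n) = (b : ZMod q) := by simp
    have := congrArg (ZMod.castHom hqn (ZMod q)) h
    rw [map_pow, map_one, hf] at this
    rw [mul_comm, pow_mul, this, one_pow]
  · -- modulo p: 2^(i+1) ∣ p - 1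
    have hfp : (ZMod.castHom hpn (ZMod p)) (b : ZMod n) = (b : ZMod p) := by simp
    have hP := congrArg (ZMod.castHom hpn (ZMod p)) h
    rw [map_pow, map_neg, map_one, hfp] at hP
    have hne : (b : ZMod p) ≠ 0 := by
      intro h0
      rw [h0, zero_pow (by
        have : 0 < d := hd.pos
        positivity)] at hP
      have : (1 : ZMod p) = 0 := by
        have h1 : (0 : ZMod p) = -1 := hP
        rw [← neg_neg (1 : ZMod p), ← h1, neg_zero]
      exact one_ne_zero this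
    have hneg : (-1 : ZMod p) ≠ 1 := by
      intro h1
      have h2 : (2 : ZMod p) = 0 := by
        have : (1 : ZMod p) + 1 = 0 := by
          nth_rewrite 1 [← h1]; ring
        rw [← this]; norm_num
      have h3 : ((2 : ℕ) : ZMod p) = 0 := by exact_mod_cast h2
      rw [ZMod.natCast_eq_zero_iff] at h3
      exact hp2 ((Nat.prime_dvd_prime_iff_eq hp Nat.prime_two).1 h3)
    -- x = b^d has order exactly 2^(i+1)
    have hx1 : ((b : ZMod p) ^ d) ^ (2 ^ i) = -1 := by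
      rw [← pow_mul, mul_comm]; exact hP
    have hx2 : ((b : ZMod p) ^ d) ^ (2 ^ (i + 1)) = 1 := by
      rw [pow_succ, pow_mul, hx1]; norm_num
    have hord : orderOf ((b : ZMod p) ^ d) = 2 ^ (i + 1) := by
      apply orderOf_eq_prime_pow
      · rw [hx1]; exact hneg
      · exact hx2
    have hdiv : 2 ^ (i + 1) ∣ p - 1 := by
      rw [← hord]
      apply orderOf_dvd_of_pow_eq_one
      rw [← pow_mul, mul_comm, pow_mul, ZMod.pow_card_sub_one_eq_one hne, one_pow]
    have hle : i + 1 ≤ padicValNat 2 (p - 1) := by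
      rw [← padicValNat_dvd_iff_le (by have := hp.two_le; omega)]
      exact hdiv
    have hfq : (ZMod.castHom hqn (ZMod q)) (b : ZMod n) = (b : ZMod q) := by simp
    have hQ := congrArg (ZMod.castHom hqn (ZMod q)) h
    rw [map_pow, map_neg, map_one, hfq] at hQ
    obtain ⟨k, hk⟩ := Nat.exists_eq_add_of_le hle
    have e : 2 ^ padicValNat 2 (p - 1) * d = (2 ^ i * d) * (2 * 2 ^ k) := by
      rw [hk]; ring
    rw [e, pow_mul, hQ, pow_mul]
    norm_num

/-- the group of solutions is small -/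
lemma card_le_of_pow {q g : ℕ} (hq : q.Prime) (hg : 0 < g) (s : Finset ℕ)
    (hs : ∀ m ∈ s, 1 ≤ m ∧ m ≤ q - 1) (h : ∀ m ∈ s, (m : ZMod q) ^ g = 1) : s.card ≤ g := by
  have : Fact q.Prime := ⟨hq⟩
  classical
  have hq1 : 1 < q := hq.one_lt
  have hinj : Set.InjOn (fun m : ℕ => (m : ZMod q)) s := by
    intro a ha b hb hab
    have ha' := hs a (Finset.mem_coe.1 ha)
    have hb' := hs b (Finset.mem_coe.1 hb)
    simp only at hab
    rw [ZMod.natCast_eq_natCast_iff] at hab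
    exact Nat.ModEq.eq_of_lt_of_lt hab (by omega) (by omega)
  have hsub : s.image (fun m : ℕ => (m : ZMod q)) ⊆ (Polynomial.nthRoots g (1 : ZMod q)).toFinset := by
    intro x hx
    rw [Finset.mem_image] at hx
    obtain ⟨m, hm, rfl⟩ := hx
    rw [Multiset.mem_toFinset, Polynomial.mem_nthRoots hg]
    exact h m hm
  calc s.card = (s.image (fun m : ℕ => (m : ZMod q))).card := (Finset.card_image_of_injOn hinj).symm
    _ ≤ ((Polynomial.nthRoots g (1 : ZMod q)).toFinset).card := Finset.card_le_card hsub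
    _ ≤ Multiset.card (Polynomial.nthRoots g (1 : ZMod q)) := Multiset.toFinset_card_le _
    _ ≤ g := Polynomial.card_nthRoots g 1

/-- smooth numbers inherit `x^g = 1` -/
lemma smooth_pow {q N g : ℕ} (h : ∀ ℓ : ℕ, ℓ.Prime → ℓ ≤ N → (ℓ : ZMod q) ^ g = 1) :
    ∀ m : ℕ, 1 ≤ m → (∀ p : ℕ, p.Prime → p ∣ m → p ≤ N) → (m : ZMod q) ^ g = 1 := by
  intro m
  induction m using Nat.strong_induction_on with
  | _ m ih =>
    intro hm hsm
    rcases Nat.eq_or_lt_of_le hm with h1 | h1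
    · rw [← h1]; simp
    · obtain ⟨p, hp, hpm⟩ := Nat.exists_prime_and_dvd (by omega : m ≠ 1)
      obtain ⟨k, hk⟩ := hpm
      have hk0 : 0 < k := by
        rcases Nat.eq_zero_or_pos k with h0 | h0
        · rw [h0, mul_zero] at hk; omega
        · exact h0
      have hkm : k < m := by
        rw [hk]
        have := hp.two_le
        nlinarith
      have h2 := ih k hkm hk0 (fun r hr hrk => hsm r hr (hk ▸ Dvd.dvd.mul_left hrk p))
      rw [hk]
      push_cast
      rw [mul_pow, h2, mul_one]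
      exact h p hp (hsm p hp ⟨k, hk⟩)

theorem main {n p q j d : ℕ} (hn : 1 < n) (hnp : ¬ n.Prime) (hp : p.Prime) (hq : q.Prime)
    (hpn : p ∣ n) (hqn : q ∣ n) (hjd : n - 1 = 2 ^ j * d) (hd : Odd d)
    (hg : (Nat.gcd (q - 1) (2 ^ padicValNat 2 (p - 1) * d)) ^ 2 ≤ q) :
    ∃ b : ℕ, 1 < b ∧ (b : ℝ) ≤ 2 * (Real.log (n : ℝ)) ^ 2 ∧
        ∀ j d : ℕ, n - 1 = 2 ^ j * d → Odd d →
          ((b : ZMod n) ^ d ≠ 1 ∧
            ∀ i : ℕ, i < j → (b : ZMod n) ^ (2 ^ i * d) ≠ -1) := by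
  by_contra hcon
  push Not at hcon
  have hpass : ∀ b : ℕ, 1 < b → (b : ℝ) ≤ 2 * (Real.log (n : ℝ)) ^ 2 → Pass n j d b := by
    intro b hb hb'
    apply pass_of_not hjd hd
    obtain ⟨j', d', h1, h2, h3⟩ := hcon b hb hb'
    intro hall
    obtain ⟨h4, h5⟩ := hall j' d' h1 h2
    obtain ⟨i, hi, h6⟩ := h3 h4
    exact h5 i hi h6
  have hd0 : 0 < d := hd.pos
  -- a base sharing a prime factor with n fails
  have hshare : ∀ b : ℕ, ∀ r : ℕ, r.Prime → r ∣ n → r ∣ b → ¬ Pass n j d b := by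
    intro b r hr hrn hrb hP
    have : Fact r.Prime := ⟨hr⟩
    have h0 : (b : ZMod r) = 0 := (ZMod.natCast_eq_zero_iff b r).2 hrb
    rcases pass_dvd hrn hP with h | ⟨i, _, h⟩
    · rw [h0, zero_pow hd0.ne'] at h
      exact zero_ne_one h
    · rw [h0, zero_pow (by positivity)] at h
      have : (1 : ZMod r) = 0 := by
        rw [← neg_neg (1 : ZMod r), ← h, neg_zero]
      exact one_ne_zero this
  have hn4 : 4 ≤ n := by
    by_contra hlt
    have : n = 2 ∨ n = 3 := by omega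
    rcases this with h | h
    · rw [h] at hnp; exact hnp Nat.prime_two
    · rw [h] at hnp; exact hnp Nat.prime_three
  have hlog4 : (1 : ℝ) ≤ Real.log n := by
    rw [Real.le_log_iff_exp_le (by exact_mod_cast (by omega : 0 < n))]
    have : (4 : ℝ) ≤ n := by exact_mod_cast hn4
    linarith [Real.exp_one_lt_d9]
  have hB2 : (2 : ℝ) ≤ 2 * (Real.log (n : ℝ)) ^ 2 := by nlinarith
  -- n is odd
  have hodd : ¬ 2 ∣ n := by
    intro h2
    exact hshare 2 2 Nat.prime_two h2 dvd_rfl (hpass 2 (by norm_num) (by exact_mod_cast hB2))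
  have hp2 : p ≠ 2 := fun h => hodd (h ▸ hpn)
  -- the bound N
  obtain ⟨N, hN⟩ : ∃ N, N = ⌊2 * (Real.log (n : ℝ)) ^ 2⌋₊ := ⟨_, rfl⟩
  have hB0 : (0 : ℝ) ≤ 2 * (Real.log (n : ℝ)) ^ 2 := by positivity
  have hNle : ∀ b : ℕ, b ≤ N → (b : ℝ) ≤ 2 * (Real.log (n : ℝ)) ^ 2 := by
    intro b hb
    have h1 := Nat.floor_le hB0
    rw [← hN] at h1
    have h2 : (b : ℝ) ≤ N := by exact_mod_cast hb
    linarith
  have hNlt : 2 * (Real.log (n : ℝ)) ^ 2 < (N : ℝ) + 1 := by
    rw [hN]; exact Nat.lt_floor_add_one _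
  have hN1 : 1 ≤ N := by
    rw [hN]
    apply Nat.le_floor
    push_cast
    linarith
  -- q > N
  have hqN : N < q := by
    by_contra hle
    rw [not_lt] at hle
    exact hshare q q hq hqn dvd_rfl (hpass q hq.one_lt (hNle q hle))
  -- 3 q ≤ n
  have h3q : 3 * q ≤ n := by
    obtain ⟨m, hm⟩ := hqn
    have hm1 : m ≠ 1 := by
      intro h; rw [h, mul_one] at hm
      exact hnp (hm ▸ hq)
    have hm0 : m ≠ 0 := by
      intro h; rw [h, mul_zero] at hm; omega
    have hm2 : m ≠ 2 := by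
      intro h; rw [h] at hm
      exact hodd ⟨q, by rw [hm]; ring⟩
    rw [hm, mul_comm]
    exact Nat.mul_le_mul_left q (by omega)
  have hcount := smooth_count hqN h3q hN1 hNlt
  have : Fact q.Prime := ⟨hq⟩
  obtain ⟨g, hgdef⟩ : ∃ g, g = Nat.gcd (q - 1) (2 ^ padicValNat 2 (p - 1) * d) := ⟨_, rfl⟩
  have hg0 : 0 < g := by
    rw [hgdef]
    exact Nat.gcd_pos_of_pos_left _ (by have := hq.two_le; omega)
  have hprime : ∀ ℓ : ℕ, ℓ.Prime → ℓ ≤ N → (ℓ : ZMod q) ^ g = 1 := by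
    intro ℓ hℓ hℓN
    have hP := hpass ℓ hℓ.one_lt (hNle ℓ hℓN)
    have h1 := pass_pow hp hp2 hpn hqn hd hP
    have hne : (ℓ : ZMod q) ≠ 0 := by
      intro h0
      rw [ZMod.natCast_eq_zero_iff] at h0
      have := (Nat.prime_dvd_prime_iff_eq hq hℓ).1 h0
      omega
    have h2 : (ℓ : ZMod q) ^ (q - 1) = 1 := ZMod.pow_card_sub_one_eq_one hne
    rw [hgdef]
    exact pow_gcd_eq_one.2 ⟨h2, h1⟩
  have hcard : (A N (q - 1)).card ≤ g := by
    apply card_le_of_pow hq hg0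
    · intro m hm
      exact (mem_A.1 hm).1
    · intro m hm
      have hm' := mem_A.1 hm
      exact smooth_pow hprime m hm'.1.1 hm'.2
  rw [← hgdef] at hg
  have h1 : Real.sqrt q ≤ (g : ℝ) := le_trans hcount (by exact_mod_cast hcard)
  have h2 : (q : ℝ) ≤ (g : ℝ) ^ 2 := by
    rw [Real.sqrt_le_left (by positivity)] at h1
    exact h1
  have h3 : q ≤ g ^ 2 := by exact_mod_cast h2
  have h4 : q = g ^ 2 := le_antisymm h3 hg
  rw [h4] at hq
  exact (Nat.Prime.not_prime_pow (by norm_num) : ¬ (g ^ 2).Prime) hq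

/-- some prime factor `p` of `n` has `v₂(p-1) ≤ v₂(n-1)` -/
lemma exists_small_val {n j d : ℕ} (hn : 1 < n) (hodd : ¬ 2 ∣ n) (hjd : n - 1 = 2 ^ j * d)
    (hd : Odd d) : ∃ p : ℕ, p.Prime ∧ p ∣ n ∧ padicValNat 2 (p - 1) ≤ j := by
  by_contra hcon
  push Not at hcon
  have hmod : ∀ p : ℕ, p.Prime → p ∣ n → p ≡ 1 [MOD 2 ^ (j + 1)] := by
    intro p hp hpn
    have h1 := hcon p hp hpn
    have h2 : 2 ^ (j + 1) ∣ p - 1 := by
      rw [padicValNat_dvd_iff_le (by
        have h3 : p ≠ 2 := fun h => hodd (h ▸ hpn)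
        have := hp.two_le; omega)]
      omega
    exact ((Nat.modEq_iff_dvd' hp.one_lt.le).2 h2).symm
  have hall : ∀ m : ℕ, 1 ≤ m → (∀ p : ℕ, p.Prime → p ∣ m → p ≡ 1 [MOD 2 ^ (j + 1)]) →
      m ≡ 1 [MOD 2 ^ (j + 1)] := by
    intro m
    induction m using Nat.strong_induction_on with
    | _ m ih =>
      intro hm hpm
      rcases Nat.eq_or_lt_of_le hm with h1 | h1
      · rw [← h1]
      · obtain ⟨p, hp, hpm'⟩ := Nat.exists_prime_and_dvd (by omega : m ≠ 1)
        obtain ⟨k, hk⟩ := hpm'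
        have hk0 : 0 < k := by
          rcases Nat.eq_zero_or_pos k with h0 | h0
          · rw [h0, mul_zero] at hk; omega
          · exact h0
        have hkm : k < m := by
          rw [hk]
          have := hp.two_le
          nlinarith
        have h2 := ih k hkm hk0 (fun r hr hrk => hpm r hr (hk ▸ Dvd.dvd.mul_left hrk p))
        rw [hk]
        exact (hpm p hp ⟨k, hk⟩).mul h2
  have h1 := hall n hn.le hmod
  have h2 : 2 ^ (j + 1) ∣ n - 1 := (Nat.modEq_iff_dvd' hn.le).1 h1.symm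
  rw [hjd, pow_succ] at h2
  have h3 : 2 ∣ d := Nat.dvd_of_mul_dvd_mul_left (by positivity) h2
  rw [Nat.odd_iff] at hd
  omega

end Pool.Agent.Lib.MP0b15c0
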