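import Pool.Agent.Lib.MP_0b15c0_nt.Asym
import Pool.Agent.Lib.MP_0b15c0_nt.Group

set_option autoImplicit false

namespace Pool.Agent.Lib.MP0b15c0

open Finset Real

lemma share_fail {n j d b r : ℕ} (hd : Odd d) (hr : r.Prime) (hrn : r ∣ n) (hrb : r ∣ b) :
    ¬ Pass n j d b := by
  intro hP
  have : Fact r.Prime := ⟨hr⟩
  have hd0 : 0 < d := hd.pos
  have h0 : (b : ZMod r) = 0 := (ZMod.natCast_eq_zero_iff b r).2 hrb
  rcases pass_dvd hrn hP with h | ⟨i, _, h⟩
  · rw [h0, zero_pow hd0.ne'] at h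
    exact zero_ne_one h
  · rw [h0, zero_pow (by positivity)] at h
    have : (1 : ZMod r) = 0 := by
      rw [← neg_neg (1 : ZMod r), ← h, neg_zero]
    exact one_ne_zero this

lemma neg_one_ne {r : ℕ} (hr : r.Prime) (hr2 : r ≠ 2) : (-1 : ZMod r) ≠ 1 := by
  have : Fact r.Prime := ⟨hr⟩
  intro h1
  have h2 : (2 : ZMod r) = 0 := by
    have : (1 : ZMod r) + 1 = 0 := by
      nth_rewrite 1 [← h1]; ring
    rw [← this]; norm_num
  have h3 : ((2 : ℕ) : ZMod r) = 0 := by exact_mod_cast h2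
  rw [ZMod.natCast_eq_zero_iff] at h3
  exact hr2 ((Nat.prime_dvd_prime_iff_eq hr Nat.prime_two).1 h3)

/-- Jacobi symbols from the strong test: if `b^(2^i d) = -1`. -/
lemma jac_neg {r i d b : ℕ} (hr : r.Prime) (hr2 : r ≠ 2) (hd : Odd d)
    (h : (b : ZMod r) ^ (2 ^ i * d) = -1) :
    i + 1 ≤ padicValNat 2 (r - 1) ∧
    jacobiSym (b : ℤ) r = (if padicValNat 2 (r - 1) = i + 1 then -1 else 1) := by
  have : Fact r.Prime := ⟨hr⟩
  have hr1 : 2 ≤ r := hr.two_le
  have hd0 : 0 < d := hd.pos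
  have hne : (b : ZMod r) ≠ 0 := by
    intro h0
    rw [h0, zero_pow (by positivity)] at h
    have : (1 : ZMod r) = 0 := by
      have h1 : (0 : ZMod r) = -1 := h
      rw [← neg_neg (1 : ZMod r), ← h1, neg_zero]
    exact one_ne_zero this
  have hneg := neg_one_ne hr hr2
  have hx1 : ((b : ZMod r) ^ d) ^ (2 ^ i) = -1 := by
    rw [← pow_mul, mul_comm]; exact h
  have hx2 : ((b : ZMod r) ^ d) ^ (2 ^ (i + 1)) = 1 := by
    rw [pow_succ, pow_mul, hx1]; norm_num
  have hord : orderOf ((b : ZMod r) ^ d) = 2 ^ (i + 1) := by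
    apply orderOf_eq_prime_pow
    · rw [hx1]; exact hneg
    · exact hx2
  have hdiv : 2 ^ (i + 1) ∣ r - 1 := by
    rw [← hord]
    apply orderOf_dvd_of_pow_eq_one
    rw [← pow_mul, mul_comm, pow_mul, ZMod.pow_card_sub_one_eq_one hne, one_pow]
  have hle : i + 1 ≤ padicValNat 2 (r - 1) := by
    rw [← padicValNat_dvd_iff_le (by omega)]
    exact hdiv
  refine ⟨hle, ?_⟩
  -- r - 1 = 2^e t
  obtain ⟨e, t, ht, het⟩ : ∃ e t : ℕ, ¬ 2 ∣ t ∧ r - 1 = 2 ^ e * t :=
    Nat.exists_eq_pow_mul_and_not_dvd (by omega) 2 (by norm_num)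
  have hF : Fact (Nat.Prime 2) := ⟨Nat.prime_two⟩
  have ht0 : t ≠ 0 := by
    intro h0; rw [h0] at ht; exact ht (dvd_zero 2)
  have hval : padicValNat 2 (r - 1) = e := by
    rw [het, padicValNat.mul (by positivity) ht0, padicValNat.prime_pow,
      padicValNat.eq_zero_of_not_dvd ht, add_zero]
  rw [hval] at hle ⊢
  have htodd : Odd t := by
    rw [Nat.odd_iff]; omega
  obtain ⟨f, hf⟩ : ∃ f, e = i + 1 + f := Nat.exists_eq_add_of_le hle
  have hhalf : r / 2 = 2 ^ (i + f) * t := by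
    have h1 : r - 1 = 2 * (2 ^ (i + f) * t) := by
      rw [het, hf]; ring
    omega
  rw [← jacobiSym.legendreSym.to_jacobiSym]
  have hcast : (((b : ℤ)) : ZMod r) = (b : ZMod r) := by push_cast; rfl
  have hL := legendreSym.eq_pow r (b : ℤ)
  rw [hcast, hhalf] at hL
  have hbz : (((b : ℤ)) : ZMod r) ≠ 0 := by rw [hcast]; exact hne
  have hLpm := legendreSym.eq_one_or_neg_one r hbz
  -- L^d = L
  have hLd : (legendreSym r (b : ℤ)) ^ d = legendreSym r (b : ℤ) := by
    rcases hLpm with h1 | h1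
    · rw [h1, one_pow]
    · rw [h1, hd.neg_one_pow]
  have hLZ : ((legendreSym r (b : ℤ) : ℤ) : ZMod r) = ((b : ZMod r) ^ (2 ^ i * d)) ^ (2 ^ f * t) := by
    calc ((legendreSym r (b : ℤ) : ℤ) : ZMod r)
        = (((legendreSym r (b : ℤ)) ^ d : ℤ) : ZMod r) := by rw [hLd]
      _ = ((legendreSym r (b : ℤ) : ℤ) : ZMod r) ^ d := by push_cast; rfl
      _ = _ := by
        rw [hL, ← pow_mul, ← pow_mul]
        congr 1; ring
  rw [h] at hLZ
  rcases Nat.eq_zero_or_pos f with hf0 | hf0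
  · have he : e = i + 1 := by omega
    rw [if_pos he]
    rw [hf0, pow_zero, one_mul, htodd.neg_one_pow] at hLZ
    rcases hLpm with h1 | h1
    · exfalso
      rw [h1] at hLZ
      push_cast at hLZ
      exact hneg hLZ.symm
    · exact h1
  · have he : e ≠ i + 1 := by omega
    rw [if_neg he]
    have heven : Even (2 ^ f * t) := by
      apply Even.mul_right
      exact (Nat.even_pow.2 ⟨even_two, by omega⟩)
    rw [heven.neg_one_pow] at hLZ
    rcases hLpm with h1 | h1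
    · exact h1
    · exfalso
      rw [h1] at hLZ
      push_cast at hLZ
      exact hneg hLZ

lemma jac_one {r d b : ℕ} (hr : r.Prime) (hd : Odd d)
    (h : (b : ZMod r) ^ d = 1) : jacobiSym (b : ℤ) r = 1 := by
  have : Fact r.Prime := ⟨hr⟩
  have hne : (b : ZMod r) ≠ 0 := by
    intro h0
    rw [h0, zero_pow hd.pos.ne'] at h
    exact zero_ne_one h
  rw [← jacobiSym.legendreSym.to_jacobiSym]
  have hcast : (((b : ℤ)) : ZMod r) = (b : ZMod r) := by push_cast; rfl
  have hbz : (((b : ℤ)) : ZMod r) ≠ 0 := by rw [hcast]; exact hne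
  -- b = (b^((d+1)/2))^2 * ... : b^(d+1) = b
  rw [legendreSym.eq_one_iff r hbz, hcast]
  obtain ⟨k, hk⟩ := hd
  refine ⟨(b : ZMod r) ^ (k + 1), ?_⟩
  rw [← pow_add, show k + 1 + (k + 1) = d + 1 by omega, pow_succ, h, one_mul]

lemma jac_pass {n j d b r p : ℕ} (hr : r.Prime) (hr2 : r ≠ 2) (hp : p.Prime) (hp2 : p ≠ 2)
    (hrn : r ∣ n) (hpn : p ∣ n) (hd : Odd d) (h : Pass n j d b)
    (hmin : padicValNat 2 (p - 1) ≤ padicValNat 2 (r - 1)) :
    jacobiSym (b : ℤ) r =
      (if padicValNat 2 (r - 1) = padicValNat 2 (p - 1) then jacobiSym (b : ℤ) p else 1) := by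
  have hfr : (ZMod.castHom hrn (ZMod r)) (b : ZMod n) = (b : ZMod r) := by simp
  have hfp : (ZMod.castHom hpn (ZMod p)) (b : ZMod n) = (b : ZMod p) := by simp
  rcases h with h | ⟨i, _, h⟩
  · have h1 := congrArg (ZMod.castHom hrn (ZMod r)) h
    have h2 := congrArg (ZMod.castHom hpn (ZMod p)) h
    rw [map_pow, map_one, hfr] at h1
    rw [map_pow, map_one, hfp] at h2
    rw [jac_one hr hd h1, jac_one hp hd h2]
    split_ifs <;> rfl
  · have h1 := congrArg (ZMod.castHom hrn (ZMod r)) h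
    have h2 := congrArg (ZMod.castHom hpn (ZMod p)) h
    rw [map_pow, map_neg, map_one, hfr] at h1
    rw [map_pow, map_neg, map_one, hfp] at h2
    obtain ⟨a1, a2⟩ := jac_neg hr hr2 hd h1
    obtain ⟨b1, b2⟩ := jac_neg hp hp2 hd h2
    rw [a2, b2]
    split_ifs <;> first | rfl | (exfalso; omega)

/-- the structure theorem -/
theorem struct_thm {n N j d : ℕ} (hn : 1 < n) (hnp : ¬ n.Prime) (hjd : n - 1 = 2 ^ j * d)
    (hd : Odd d) (hN : 2 ≤ N)
    (hpass : ∀ b : ℕ, 2 ≤ b → b ≤ N → Pass n j d b)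
    (hgcd : ∀ p : ℕ, p.Prime → p ∣ n →
      p < (Nat.gcd (p - 1) (2 ^ padicValNat 2 (p - 1) * d)) ^ 2) :
    Triv N n ∨ ∃ p m : ℕ, p.Prime ∧ n = p * m ∧ 2 ≤ m ∧ Triv N m ∧
      p < (Nat.gcd (p - 1) (m - 1)) ^ 2 := by
  have hodd : ¬ 2 ∣ n := fun h2 => share_fail hd Nat.prime_two h2 dvd_rfl (hpass 2 le_rfl hN)
  have hbig : ∀ r : ℕ, r.Prime → r ∣ n → N < r := by
    intro r hr hrn
    by_contra hcon
    rw [not_lt] at hcon
    exact share_fail hd hr hrn dvd_rfl (hpass r hr.two_le hcon)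
  -- minimal valuation
  obtain ⟨p, hp, hpmin⟩ : ∃ p ∈ n.primeFactors, ∀ r ∈ n.primeFactors,
      padicValNat 2 (p - 1) ≤ padicValNat 2 (r - 1) := by
    apply Finset.exists_min_image n.primeFactors (fun r => padicValNat 2 (r - 1))
    obtain ⟨r, hr, hrn⟩ := Nat.exists_prime_and_dvd (by omega : n ≠ 1)
    exact ⟨r, Nat.mem_primeFactors.2 ⟨hr, hrn, by omega⟩⟩
  have hn0 : n ≠ 0 := by omega
  have hpP : p.Prime := (Nat.mem_primeFactors.1 hp).1
  have hpn : p ∣ n := (Nat.mem_primeFactors.1 hp).2.1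
  have hp2 : p ≠ 2 := fun h => hodd (h ▸ hpn)
  -- the exponent lemma
  have hexp : ∀ m : ℕ, m ∣ n → ∃ t : ℕ, ∀ b : ℕ, 2 ≤ b → b ≤ N →
      jacobiSym (b : ℤ) m = (jacobiSym (b : ℤ) p) ^ t := by
    intro m
    induction m using Nat.strong_induction_on with
    | _ m ih =>
      intro hmn
      rcases Nat.lt_or_ge 1 m with h1 | h1
      · obtain ⟨r, hr, hrm⟩ := Nat.exists_prime_and_dvd (by omega : m ≠ 1)
        obtain ⟨k, hk⟩ := hrm
        have hk0 : 0 < k := by
          rcases Nat.eq_zero_or_pos k with h0 | h0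
          · rw [h0, mul_zero] at hk; omega
          · exact h0
        have hkm : k < m := by
          rw [hk]
          have := hr.two_le
          nlinarith
        have hkn : k ∣ n := dvd_trans ⟨r, by rw [hk]; ring⟩ hmn
        have hrn : r ∣ n := dvd_trans ⟨k, hk⟩ hmn
        have hr2 : r ≠ 2 := fun h => hodd (h ▸ hrn)
        obtain ⟨t, ht⟩ := ih k hkm hkn
        have hmin := hpmin r (Nat.mem_primeFactors.2 ⟨hr, hrn, hn0⟩)
        have hNZr : NeZero r := ⟨hr.ne_zero⟩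
        have hNZk : NeZero k := ⟨hk0.ne'⟩
        by_cases hv : padicValNat 2 (r - 1) = padicValNat 2 (p - 1)
        · refine ⟨t + 1, fun b hb hbN => ?_⟩
          have h2 := jac_pass hr hr2 hpP hp2 hrn hpn hd (hpass b hb hbN) hmin
          rw [if_pos hv] at h2
          rw [hk, jacobiSym.mul_right, h2, ht b hb hbN, pow_succ, mul_comm]
        · refine ⟨t, fun b hb hbN => ?_⟩
          have h2 := jac_pass hr hr2 hpP hp2 hrn hpn hd (hpass b hb hbN) hmin
          rw [if_neg hv] at h2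
          rw [hk, jacobiSym.mul_right, h2, ht b hb hbN, one_mul]
      · refine ⟨0, fun b _ _ => ?_⟩
        have : m = 1 := by
          have : m ≠ 0 := by
            intro h0; rw [h0] at hmn
            exact hn0 (Nat.eq_zero_of_zero_dvd hmn)
          omega
        rw [this, jacobiSym.one_right, pow_zero]
  have hoddn : Odd n := by rw [Nat.odd_iff]; omega
  have hsq : ∀ b : ℕ, 2 ≤ b → b ≤ N → (jacobiSym (b : ℤ) p) ^ 2 = 1 := by
    intro b hb hbN
    apply jacobiSym.sq_one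
    have hcop : Nat.Coprime b p := by
      rw [Nat.coprime_comm, Nat.Prime.coprime_iff_not_dvd hpP]
      intro hdvd
      have := Nat.le_of_dvd (by omega) hdvd
      have := hbig p hpP hpn
      omega
    simpa using hcop
  obtain ⟨t, ht⟩ := hexp n dvd_rfl
  rcases Nat.even_or_odd t with heven | hoddt
  · left
    refine ⟨hoddn, fun b hb hbN => ?_⟩
    obtain ⟨s, hs⟩ := heven
    rw [ht b hb hbN, hs, ← two_mul, pow_mul, hsq b hb hbN, one_pow]
  · right
    obtain ⟨m, hm⟩ := hpn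
    have hm0 : m ≠ 0 := by
      intro h0; rw [h0, mul_zero] at hm; exact hn0 hm
    have hm1 : m ≠ 1 := by
      intro h1; rw [h1, mul_one] at hm; exact hnp (hm ▸ hpP)
    have hpn' : p ∣ n := ⟨m, hm⟩
    refine ⟨p, m, hpP, hm, by omega, ⟨?_, ?_⟩, ?_⟩
    · rw [hm] at hoddn
      exact (Nat.odd_mul.1 hoddn).2
    · intro b hb hbN
      have hNZp : NeZero p := ⟨hpP.ne_zero⟩
      have hNZm : NeZero m := ⟨hm0⟩
      have h1 := ht b hb hbN
      rw [hm, jacobiSym.mul_right] at h1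
      obtain ⟨s, hs⟩ := hoddt
      have h2 := hsq b hb hbN
      have h3 : (jacobiSym (b : ℤ) p) ^ (t + 1) = 1 := by
        rw [hs, show 2 * s + 1 + 1 = 2 * (s + 1) by ring, pow_mul, h2, one_pow]
      calc jacobiSym (b : ℤ) m = (jacobiSym (b : ℤ) p) ^ 2 * jacobiSym (b : ℤ) m := by
            rw [h2, one_mul]
        _ = jacobiSym (b : ℤ) p * (jacobiSym (b : ℤ) p * jacobiSym (b : ℤ) m) := by ring
        _ = (jacobiSym (b : ℤ) p) ^ (t + 1) := by rw [h1, pow_succ]; ring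
        _ = 1 := h3
    · have h1 := hgcd p hpP hpn'
      refine lt_of_lt_of_le h1 ?_
      apply Nat.pow_le_pow_left
      have hp1 := hpP.two_le
      apply Nat.le_of_dvd
      · exact Nat.gcd_pos_of_pos_left _ (by omega)
      apply Nat.dvd_gcd (Nat.gcd_dvd_left _ _)
      -- e_p ≤ j
      have hej : padicValNat 2 (p - 1) ≤ j := by
        obtain ⟨r, hr, hrn, hrj⟩ := exists_small_val hn hodd hjd hd
        exact le_trans (hpmin r (Nat.mem_primeFactors.2 ⟨hr, hrn, hn0⟩)) hrj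
      have h2 : 2 ^ padicValNat 2 (p - 1) * d ∣ n - 1 := by
        rw [hjd]
        exact Nat.mul_dvd_mul_right (pow_dvd_pow 2 hej) d
      have e : n - 1 = (p - 1) * m + (m - 1) := by
        rw [hm, Nat.sub_mul]
        have h3 : m ≤ p * m := Nat.le_mul_of_pos_left m (by omega)
        omega
      have h4 : Nat.gcd (p - 1) (2 ^ padicValNat 2 (p - 1) * d) ∣ n - 1 :=
        dvd_trans (Nat.gcd_dvd_right _ _) h2
      have h5 : Nat.gcd (p - 1) (2 ^ padicValNat 2 (p - 1) * d) ∣ (p - 1) * m :=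
        Dvd.dvd.mul_right (Nat.gcd_dvd_left _ _) m
      exact (Nat.dvd_add_right h5).1 (e ▸ h4)

end Pool.Agent.Lib.MP0b15c0
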