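import Pool.Agent.Lib.MP_0b15c0_nt.PV

set_option autoImplicit false

namespace Pool.Agent.Lib.MP0b15c0

noncomputable section

open Finset Real
open scoped symmDiff

/-- indicator that no prime of `I` divides `D` -/
def cop (I : Finset ℕ) (D : ℕ) : ℝ := ∏ p ∈ I, (if p ∣ D then 0 else 1)

lemma cop_mul {I : Finset ℕ} {p D : ℕ} (hp : p.Prime) (hI : ∀ r ∈ I, r.Prime) (hpI : p ∉ I) :
    cop I (p * D) = cop I D := by
  unfold cop
  apply Finset.prod_congr rfl
  intro r hr
  have h1 : r ∣ p * D ↔ r ∣ D := by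
    constructor
    · intro h
      rcases (Nat.Prime.dvd_mul (hI r hr)).1 h with h | h
      · exfalso
        have := (Nat.prime_dvd_prime_iff_eq (hI r hr) hp).1 h
        exact hpI (this ▸ hr)
      · exact h
    · intro h; exact Dvd.dvd.mul_left h p
  simp only [h1]

/-- sum over multiples of `p` -/
lemma sum_mult (p M : ℕ) (hp : 0 < p) (f : ℕ → ℝ) :
    ∑ D ∈ (range M).filter (fun D => p ∣ D), f D = ∑ D ∈ range ((M + p - 1) / p), f (p * D) := by
  symm
  apply Finset.sum_nbij (fun D => p * D)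
  · intro D hD
    rw [Finset.mem_range] at hD
    rw [Finset.mem_filter, Finset.mem_range]
    refine ⟨?_, dvd_mul_right p D⟩
    have h1 : D + 1 ≤ (M + p - 1) / p := hD
    rw [Nat.le_div_iff_mul_le hp] at h1
    have h2 : (D + 1) * p = p * D + p := by ring
    omega
  · intro a _ b _ h
    exact Nat.eq_of_mul_eq_mul_left hp h
  · intro D hD
    rw [Finset.mem_coe, Finset.mem_filter, Finset.mem_range] at hD
    obtain ⟨h1, c, hc⟩ := hD
    refine ⟨c, ?_, hc.symm⟩
    rw [Finset.mem_coe, Finset.mem_range]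
    rw [Nat.lt_iff_add_one_le, Nat.le_div_iff_mul_le hp]
    have h2 : (c + 1) * p = p * c + p := by ring
    omega
  · intro _ _; rfl

lemma cop_bound {s : ℕ} (hs : 1 < s) (hodd : Odd s) (hsq : Squarefree s) (I : Finset ℕ)
    (hI : ∀ r ∈ I, r.Prime) : ∀ M : ℕ,
    |∑ D ∈ range M, ((jacobiSym (D : ℤ) s : ℤ) : ℝ) * cop I D| ≤
      2 ^ I.card * (Real.sqrt s * (1 + Real.log s)) := by
  classical
  induction I using Finset.induction_on with
  | empty =>
    intro M
    simp only [cop, Finset.prod_empty, mul_one, Finset.card_empty, pow_zero, one_mul]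
    exact PV hs hodd hsq M
  | insert p I hpI ih =>
    intro M
    have hp : p.Prime := hI p (Finset.mem_insert_self p I)
    have hI' : ∀ r ∈ I, r.Prime := fun r hr => hI r (Finset.mem_insert_of_mem hr)
    have ih' := ih hI'
    have hcop : ∀ D, cop (insert p I) D = cop I D - (if p ∣ D then cop I D else 0) := by
      intro D
      unfold cop
      rw [Finset.prod_insert hpI]
      split_ifs <;> ring
    have e1 : ∑ D ∈ range M, ((jacobiSym (D : ℤ) s : ℤ) : ℝ) * cop (insert p I) D =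
        ∑ D ∈ range M, ((jacobiSym (D : ℤ) s : ℤ) : ℝ) * cop I D
        - ∑ D ∈ (range M).filter (fun D => p ∣ D), ((jacobiSym (D : ℤ) s : ℤ) : ℝ) * cop I D := by
      rw [Finset.sum_filter, ← Finset.sum_sub_distrib]
      apply Finset.sum_congr rfl
      intro D _
      rw [hcop]
      split_ifs <;> ring
    have e2 : ∑ D ∈ (range M).filter (fun D => p ∣ D), ((jacobiSym (D : ℤ) s : ℤ) : ℝ) * cop I D =
        ((jacobiSym (p : ℤ) s : ℤ) : ℝ) *
          ∑ D ∈ range ((M + p - 1) / p), ((jacobiSym (D : ℤ) s : ℤ) : ℝ) * cop I D := by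
      rw [sum_mult p M hp.pos (fun D => ((jacobiSym (D : ℤ) s : ℤ) : ℝ) * cop I D), Finset.mul_sum]
      apply Finset.sum_congr rfl
      intro D _
      rw [cop_mul hp hI' hpI]
      push_cast
      rw [jacobiSym.mul_left]
      push_cast
      ring
    rw [e1, e2]
    have hJ : |((jacobiSym (p : ℤ) s : ℤ) : ℝ)| ≤ 1 := by
      rcases jacobiSym.trichotomy (p : ℤ) s with h | h | h <;> rw [h] <;> norm_num
    have h1 := ih' M
    have h2 := ih' ((M + p - 1) / p)
    rw [Finset.card_insert_of_notMem hpI, pow_succ]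
    calc |∑ D ∈ range M, ((jacobiSym (D : ℤ) s : ℤ) : ℝ) * cop I D -
          ((jacobiSym (p : ℤ) s : ℤ) : ℝ) *
          ∑ D ∈ range ((M + p - 1) / p), ((jacobiSym (D : ℤ) s : ℤ) : ℝ) * cop I D|
        ≤ |∑ D ∈ range M, ((jacobiSym (D : ℤ) s : ℤ) : ℝ) * cop I D| +
          |((jacobiSym (p : ℤ) s : ℤ) : ℝ) *
          ∑ D ∈ range ((M + p - 1) / p), ((jacobiSym (D : ℤ) s : ℤ) : ℝ) * cop I D| := abs_sub _ _
      _ ≤ 2 ^ I.card * (Real.sqrt s * (1 + Real.log s)) +
          1 * (2 ^ I.card * (Real.sqrt s * (1 + Real.log s))) := by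
          rw [abs_mul]
          gcongr
      _ = _ := by ring

/-- symbol of a set of primes -/
def JS (T : Finset ℕ) (D : ℕ) : ℝ := ∏ p ∈ T, ((jacobiSym (D : ℤ) p : ℤ) : ℝ)

lemma JS_eq (T : Finset ℕ) (hT : ∀ p ∈ T, p.Prime) (D : ℕ) :
    JS T D = ((jacobiSym (D : ℤ) (∏ p ∈ T, p) : ℤ) : ℝ) := by
  classical
  unfold JS
  induction T using Finset.induction_on with
  | empty => simp
  | insert p T hpT ih =>
    rw [Finset.prod_insert hpT, Finset.prod_insert hpT,
      ih (fun r hr => hT r (Finset.mem_insert_of_mem hr))]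
    have hp := hT p (Finset.mem_insert_self p T)
    have hne : NeZero p := ⟨hp.ne_zero⟩
    have hne2 : NeZero (∏ r ∈ T, r) := ⟨Finset.prod_ne_zero_iff.2 fun r hr =>
      (hT r (Finset.mem_insert_of_mem hr)).ne_zero⟩
    rw [jacobiSym.mul_right]
    push_cast
    ring

lemma jac_sq (D p : ℕ) (hp : p.Prime) :
    ((jacobiSym (D : ℤ) p : ℤ) : ℝ) * ((jacobiSym (D : ℤ) p : ℤ) : ℝ) = if p ∣ D then 0 else 1 := by
  have hne : NeZero p := ⟨hp.ne_zero⟩
  split_ifs with h
  · have : jacobiSym (D : ℤ) p = 0 := by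
      rw [jacobiSym.eq_zero_iff_not_coprime]
      intro hcop
      have h1 : Nat.gcd D p = 1 := hcop
      have h2 := Nat.dvd_gcd h dvd_rfl
      rw [h1] at h2
      exact hp.one_lt.ne' (Nat.dvd_one.1 h2)
    rw [this]; norm_num
  · have hcop : Int.gcd (D : ℤ) p = 1 := by
      have : Nat.Coprime D p := (Nat.Prime.coprime_iff_not_dvd hp).2 h |>.symm
      exact this
    rcases jacobiSym.eq_one_or_neg_one hcop with h' | h' <;> rw [h'] <;> norm_num

lemma JS_mul (T T' : Finset ℕ) (hT : ∀ p ∈ T, p.Prime) (D : ℕ) :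
    JS T D * JS T' D = JS (T ∆ T') D * cop (T ∩ T') D := by
  classical
  have h1 : JS T D = JS (T \ T') D * JS (T ∩ T') D := by
    unfold JS
    rw [← Finset.prod_union (Finset.disjoint_sdiff_inter T T'), Finset.sdiff_union_inter]
  have h2 : JS T' D = JS (T' \ T) D * JS (T ∩ T') D := by
    unfold JS
    rw [Finset.inter_comm, ← Finset.prod_union (Finset.disjoint_sdiff_inter T' T),
      Finset.sdiff_union_inter]
  have h3 : JS (T ∆ T') D = JS (T \ T') D * JS (T' \ T) D := by
    unfold JS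
    rw [symmDiff_def, Finset.sup_eq_union, Finset.prod_union disjoint_sdiff_sdiff]
  have h4 : JS (T ∩ T') D * JS (T ∩ T') D = cop (T ∩ T') D := by
    unfold JS cop
    rw [← Finset.prod_mul_distrib]
    apply Finset.prod_congr rfl
    intro p hp
    exact jac_sq D p (hT p (Finset.mem_inter.1 hp).1)
  rw [h1, h2, h3, ← h4]
  ring

lemma cop_le_one (I : Finset ℕ) (D : ℕ) : cop I D ≤ 1 ∧ 0 ≤ cop I D := by
  unfold cop
  constructor
  · apply Finset.prod_le_one
    · intro p _; split_ifs <;> norm_num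
    · intro p _; split_ifs <;> norm_num
  · apply Finset.prod_nonneg
    intro p _; split_ifs <;> norm_num

lemma squarefree_prod (T : Finset ℕ) (hT : ∀ p ∈ T, p.Prime) : Squarefree (∏ p ∈ T, p) := by
  classical
  induction T using Finset.induction_on with
  | empty => simp
  | insert p T hpT ih =>
    rw [Finset.prod_insert hpT]
    have hp := hT p (Finset.mem_insert_self p T)
    rw [Nat.squarefree_mul_iff]
    refine ⟨?_, hp.squarefree, ih (fun r hr => hT r (Finset.mem_insert_of_mem hr))⟩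
    apply Nat.Coprime.prod_right
    intro r hr
    exact (Nat.coprime_primes hp (hT r (Finset.mem_insert_of_mem hr))).2
      (fun h => hpT (h ▸ hr))

lemma odd_prod (T : Finset ℕ) (hT : ∀ p ∈ T, Odd p) : Odd (∏ p ∈ T, p) :=
  Finset.prod_induction _ Odd (fun _ _ ha hb => ha.mul hb) odd_one hT

/-- off-diagonal bound -/
lemma offdiag {N k : ℕ} (hN : 1 ≤ N) {T T' : Finset ℕ} (hT : ∀ p ∈ T, p.Prime ∧ Odd p ∧ p ≤ N)
    (hT' : ∀ p ∈ T', p.Prime ∧ Odd p ∧ p ≤ N) (hc : T.card = k) (hc' : T'.card = k)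
    (hne : T ≠ T') (M : ℕ) :
    |∑ D ∈ range M, JS T D * JS T' D| ≤ 2 ^ k * ((N : ℝ) ^ k * (1 + 2 * k * Real.log N)) := by
  classical
  have hS : ∀ p ∈ T ∆ T', p.Prime ∧ Odd p ∧ p ≤ N := by
    intro p hp
    rw [Finset.mem_symmDiff] at hp
    rcases hp with h | h
    · exact hT p h.1
    · exact hT' p h.1
  obtain ⟨s, hs⟩ : ∃ s, s = ∏ p ∈ T ∆ T', p := ⟨_, rfl⟩
  have hSne : (T ∆ T').Nonempty := by
    rw [Finset.nonempty_iff_ne_empty]
    intro h
    exact hne (symmDiff_eq_bot.1 h)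
  have hs1 : 1 < s := by
    obtain ⟨p, hp⟩ := hSne
    have h1 := (hS p hp).1.one_lt
    have h2 : p ∣ s := hs ▸ Finset.dvd_prod_of_mem _ hp
    have h3 : 0 < s := by
      rw [hs]; exact Finset.prod_pos fun r hr => (hS r hr).1.pos
    exact lt_of_lt_of_le h1 (Nat.le_of_dvd h3 h2)
  have hsodd : Odd s := hs ▸ odd_prod _ fun p hp => (hS p hp).2.1
  have hssq : Squarefree s := hs ▸ squarefree_prod _ fun p hp => (hS p hp).1
  have e : ∀ D, JS T D * JS T' D = ((jacobiSym (D : ℤ) s : ℤ) : ℝ) * cop (T ∩ T') D := by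
    intro D
    rw [JS_mul T T' (fun p hp => (hT p hp).1) D, JS_eq _ (fun p hp => (hS p hp).1), hs]
  simp only [e]
  have h1 := cop_bound hs1 hsodd hssq (T ∩ T')
    (fun r hr => (hT r (Finset.mem_inter.1 hr).1).1) M
  refine le_trans h1 ?_
  have hcardI : (T ∩ T').card ≤ k := by
    rw [← hc]; exact Finset.card_le_card Finset.inter_subset_left
  have hcardS : (T ∆ T').card ≤ 2 * k := by
    have : (T ∆ T').card ≤ (T \ T').card + (T' \ T).card := by
      rw [symmDiff_def, Finset.sup_eq_union]; exact Finset.card_union_le _ _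
    have h2 : (T \ T').card ≤ k := by rw [← hc]; exact Finset.card_le_card Finset.sdiff_subset
    have h3 : (T' \ T).card ≤ k := by rw [← hc']; exact Finset.card_le_card Finset.sdiff_subset
    omega
  have hsN : s ≤ N ^ (2 * k) := by
    calc s = ∏ p ∈ T ∆ T', p := hs
      _ ≤ N ^ (T ∆ T').card := Finset.prod_le_pow_card _ _ _ fun p hp => (hS p hp).2.2
      _ ≤ N ^ (2 * k) := Nat.pow_le_pow_right hN hcardS
  have hN' : (1 : ℝ) ≤ N := by exact_mod_cast hN
  have hs0 : (0 : ℝ) < s := by exact_mod_cast (by omega : 0 < s)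
  have hsN' : (s : ℝ) ≤ (N : ℝ) ^ (2 * k) := by exact_mod_cast hsN
  have hsqrt : Real.sqrt s ≤ (N : ℝ) ^ k := by
    apply Real.sqrt_le_iff.2
    refine ⟨by positivity, ?_⟩
    rw [← pow_mul, mul_comm k 2]; exact hsN'
  have hlog : Real.log s ≤ 2 * k * Real.log N := by
    have := Real.log_le_log hs0 hsN'
    rw [Real.log_pow] at this
    push_cast at this
    exact this
  have hlogs : 0 ≤ Real.log s := Real.log_nonneg (by exact_mod_cast hs1.le)
  have h2k : (2 : ℝ) ^ (T ∩ T').card ≤ 2 ^ k := pow_le_pow_right₀ (by norm_num) hcardI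
  gcongr

/-- the large-sieve type inequality -/
theorem sieve {N k M : ℕ} (hN : 1 ≤ N) (P : Finset ℕ) (hP : ∀ p ∈ P, p.Prime ∧ Odd p ∧ p ≤ N)
    (E : Finset ℕ) (hE : E ⊆ range M) (c : Finset ℕ → ℝ)
    (hc : ∀ T ∈ P.powersetCard k, (c T = 1 ∨ c T = -1))
    (hEc : ∀ T ∈ P.powersetCard k, ∀ D ∈ E, JS T D = c T) :
    (E.card : ℝ) * ((P.powersetCard k).card : ℝ) ^ 2 ≤
      M * ((P.powersetCard k).card : ℝ) +
      ((P.powersetCard k).card : ℝ) ^ 2 * (2 ^ k * ((N : ℝ) ^ k * (1 + 2 * k * Real.log N))) := by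
  classical
  obtain ⟨Q, hQ⟩ : ∃ Q, Q = P.powersetCard k := ⟨_, rfl⟩
  rw [← hQ] at hc hEc ⊢
  have hQT : ∀ T ∈ Q, (∀ p ∈ T, p.Prime ∧ Odd p ∧ p ≤ N) ∧ T.card = k := by
    intro T hT
    rw [hQ, Finset.mem_powersetCard] at hT
    exact ⟨fun p hp => hP p (hT.1 hp), hT.2⟩
  have hlow : (E.card : ℝ) * (Q.card : ℝ) ^ 2 ≤ ∑ D ∈ range M, (∑ T ∈ Q, c T * JS T D) ^ 2 := by
    have h1 : ∑ D ∈ E, (∑ T ∈ Q, c T * JS T D) ^ 2 = (E.card : ℝ) * (Q.card : ℝ) ^ 2 := by
      rw [← nsmul_eq_mul, ← Finset.sum_const]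
      apply Finset.sum_congr rfl
      intro D hD
      congr 1
      rw [Finset.cast_card]
      apply Finset.sum_congr rfl
      intro T hT
      rw [hEc T hT D hD]
      rcases hc T hT with h | h <;> rw [h] <;> norm_num
    rw [← h1]
    apply Finset.sum_le_sum_of_subset_of_nonneg hE
    intro D _ _
    positivity
  refine le_trans hlow ?_
  have hexp : ∑ D ∈ range M, (∑ T ∈ Q, c T * JS T D) ^ 2 =
      ∑ T ∈ Q, ∑ T' ∈ Q, c T * c T' * ∑ D ∈ range M, JS T D * JS T' D := by
    have : ∀ D, (∑ T ∈ Q, c T * JS T D) ^ 2 =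
        ∑ T ∈ Q, ∑ T' ∈ Q, c T * c T' * (JS T D * JS T' D) := by
      intro D
      rw [sq, Finset.sum_mul_sum]
      apply Finset.sum_congr rfl
      intro T _
      apply Finset.sum_congr rfl
      intro T' _
      ring
    simp only [this]
    rw [Finset.sum_comm]
    apply Finset.sum_congr rfl
    intro T _
    rw [Finset.sum_comm]
    apply Finset.sum_congr rfl
    intro T' _
    rw [Finset.mul_sum]
  rw [hexp]
  obtain ⟨B, hB⟩ : ∃ B : ℝ, B = 2 ^ k * ((N : ℝ) ^ k * (1 + 2 * k * Real.log N)) := ⟨_, rfl⟩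
  rw [← hB]
  have hN' : (1 : ℝ) ≤ N := by exact_mod_cast hN
  have hB0 : 0 ≤ B := by
    rw [hB]
    have := Real.log_nonneg hN'
    positivity
  have hcabs : ∀ T ∈ Q, |c T| = 1 := by
    intro T hT
    rcases hc T hT with h | h <;> rw [h] <;> norm_num
  have hterm : ∀ T ∈ Q, ∀ T' ∈ Q, c T * c T' * ∑ D ∈ range M, JS T D * JS T' D ≤
      (if T = T' then (M : ℝ) else 0) + B := by
    intro T hT T' hT'
    split_ifs with heq
    · subst heq
      have h1 : ∑ D ∈ range M, JS T D * JS T D ≤ M := by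
        calc ∑ D ∈ range M, JS T D * JS T D ≤ ∑ D ∈ range M, (1 : ℝ) := by
              apply Finset.sum_le_sum
              intro D _
              rw [JS_mul T T (fun p hp => ((hQT T hT).1 p hp).1) D, symmDiff_self]
              have : JS (⊥ : Finset ℕ) D = 1 := by
                unfold JS; simp
              rw [this, one_mul]
              exact (cop_le_one _ _).1
          _ = M := by simp
      have h2 : c T * c T = 1 := by
        rcases hc T hT with h | h <;> rw [h] <;> norm_num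
      rw [h2, one_mul]
      linarith
    · have h1 := offdiag hN (hQT T hT).1 (hQT T' hT').1 (hQT T hT).2 (hQT T' hT').2 heq M
      rw [← hB] at h1
      have h2 : |c T * c T' * ∑ D ∈ range M, JS T D * JS T' D| ≤ B := by
        rw [abs_mul, abs_mul, hcabs T hT, hcabs T' hT', one_mul, one_mul]
        exact h1
      have h3 := le_abs_self (c T * c T' * ∑ D ∈ range M, JS T D * JS T' D)
      linarith
  calc ∑ T ∈ Q, ∑ T' ∈ Q, c T * c T' * ∑ D ∈ range M, JS T D * JS T' D
      ≤ ∑ T ∈ Q, ∑ T' ∈ Q, ((if T = T' then (M : ℝ) else 0) + B) := by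
        apply Finset.sum_le_sum
        intro T hT
        apply Finset.sum_le_sum
        intro T' hT'
        exact hterm T hT T' hT'
    _ = M * (Q.card : ℝ) + (Q.card : ℝ) ^ 2 * B := by
        simp only [Finset.sum_add_distrib, Finset.sum_ite_eq, Finset.sum_const, nsmul_eq_mul]
        rw [Finset.sum_ite_mem, Finset.inter_self, Finset.sum_const, nsmul_eq_mul]
        ring

end

end Pool.Agent.Lib.MP0b15c0
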