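import Pool.Agent.Lib.MP_0b15c0_nt.Count

set_option autoImplicit false

namespace Pool.Agent.Lib.MP0b15c0

noncomputable section

open Finset Real Filter

/-- lower bound for the number of `k`-subsets -/
lemma Q_ge {N k : ℕ} {L : ℝ} (hL : 10 ≤ L) (hN1 : 2 ≤ N) (hN : 49 / 100 * L ^ 2 ≤ N)
    (hPP : (N : ℝ) / 2 ≤ ((PP N).card : ℝ) * Real.log N)
    (hk : (k : ℝ) * Real.log N ≤ 2 / 3 * L) :
    (Real.sqrt N / 2) ^ k ≤ (((PP N).powersetCard k).card : ℝ) := by
  rw [Finset.card_powersetCard]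
  rcases Nat.eq_zero_or_pos k with h0 | h0
  · subst h0; simp
  have hk0 : (0 : ℝ) < k := by exact_mod_cast h0
  have hlog : 0 < Real.log N := Real.log_pos (by exact_mod_cast (by omega : 1 < N))
  have hs : 7 / 10 * L ≤ Real.sqrt N := by
    apply Real.le_sqrt_of_sq_le
    nlinarith
  have hsq : Real.sqrt N * Real.sqrt N = N := Real.mul_self_sqrt (Nat.cast_nonneg N)
  have hs0 : 0 ≤ Real.sqrt N := Real.sqrt_nonneg _
  -- |PP| ≥ k * (√N / 2)
  have h1 : (k : ℝ) * (Real.sqrt N / 2) ≤ ((PP N).card : ℝ) := by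
    have h2 : ((k : ℝ) * (Real.sqrt N / 2)) * Real.log N ≤ ((PP N).card : ℝ) * Real.log N := by
      calc ((k : ℝ) * (Real.sqrt N / 2)) * Real.log N
          = (k * Real.log N) * (Real.sqrt N / 2) := by ring
        _ ≤ (2 / 3 * L) * (Real.sqrt N / 2) := by gcongr
        _ ≤ (N : ℝ) / 2 := by nlinarith
        _ ≤ _ := hPP
    exact le_of_mul_le_mul_right h2 hlog
  have h3 : k ≤ (PP N).card := by
    have h4 : (k : ℝ) ≤ ((PP N).card : ℝ) := by nlinarith
    exact_mod_cast h4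
  refine le_trans ?_ (choose_ge k _ h3)
  apply pow_le_pow_left₀ (by positivity)
  rw [le_div_iff₀ hk0]
  linarith

lemma DD_asym {ε : ℝ} (hε : 0 < ε) : ∃ X0 : ℝ, ∀ x : ℝ, X0 ≤ x → ∀ N : ℕ,
    N = ⌊(Real.log x) ^ 2 / 2⌋₊ → ∀ y : ℕ, 1 ≤ y → (y : ℝ) ≤ x →
    ((DD N y).card : ℝ) ≤ (y : ℝ) ^ (2 / 3 : ℝ) * x ^ ε := by
  obtain ⟨N0, hN0⟩ := card_PP_large
  have c4 : ∀ᶠ L : ℝ in atTop, 10 * L ≤ Real.exp (ε / 2 * L) := by
    have h1 : Tendsto (fun L : ℝ => L ^ 1 * Real.exp (-(ε / 2) * L)) atTop (nhds 0) := by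
      have := Real.tendsto_pow_mul_exp_neg_atTop_nhds_zero 1
      have h2 : Tendsto (fun L : ℝ => (ε / 2) * L) atTop atTop :=
        tendsto_id.const_mul_atTop (by positivity)
      have h3 := (this.comp h2).const_mul (2 / ε)
      rw [mul_zero] at h3
      apply h3.congr
      intro L
      simp only [Function.comp]
      rw [neg_mul]
      field_simp
    have h2 := h1.eventually (gt_mem_nhds (show (0 : ℝ) < 1 / 10 by norm_num))
    filter_upwards [h2] with L hL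
    rw [pow_one, neg_mul, Real.exp_neg] at hL
    have h3 := Real.exp_pos (ε / 2 * L)
    rw [← div_eq_mul_inv, div_lt_iff₀ h3] at hL
    linarith
  have c1 : ∀ᶠ L : ℝ in atTop, (N0 : ℝ) ≤ 49 / 100 * L ^ 2 ∧ 10 ≤ L ∧
      2 * Real.log 2 / ε ≤ Real.log (49 / 100 * L ^ 2) := by
    have h1 : Tendsto (fun L : ℝ => 49 / 100 * L ^ 2) atTop atTop :=
      (tendsto_pow_atTop (by norm_num)).const_mul_atTop (by norm_num)
    have h2 : Tendsto (fun L : ℝ => Real.log (49 / 100 * L ^ 2)) atTop atTop :=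
      Real.tendsto_log_atTop.comp h1
    filter_upwards [h1.eventually_ge_atTop (N0 : ℝ), eventually_ge_atTop (10 : ℝ),
      h2.eventually_ge_atTop (2 * Real.log 2 / ε)] with L e1 e2 e3
    exact ⟨e1, e2, e3⟩
  have c5 := (Real.tendsto_log_atTop.eventually (c1.and c4)).and (eventually_ge_atTop (1 : ℝ))
  obtain ⟨X0, hX0⟩ := eventually_atTop.1 c5
  refine ⟨X0, fun x hx N hN y hy hyx => ?_⟩
  obtain ⟨⟨⟨e1, e2, e3⟩, e4⟩, hx1⟩ := hX0 x hx
  obtain ⟨L, hL⟩ : ∃ L, L = Real.log x := ⟨_, rfl⟩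
  rw [← hL] at e1 e2 e3 e4 hN
  have hx0 : 0 < x := by linarith
  have hN' : 49 / 100 * L ^ 2 ≤ N := by
    have := Nat.lt_floor_add_one (L ^ 2 / 2)
    rw [← hN] at this
    nlinarith
  have hNle : (N : ℝ) ≤ L ^ 2 / 2 := by
    rw [hN]; exact Nat.floor_le (by positivity)
  have hN2 : 2 ≤ N := by
    have : (2 : ℝ) ≤ N := by nlinarith
    exact_mod_cast this
  have hNR : (2 : ℝ) ≤ N := by exact_mod_cast hN2
  have hPP := hN0 N (by
    have : (N0 : ℝ) ≤ N := le_trans e1 hN'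
    exact_mod_cast this)
  have hlogN : 0 < Real.log N := Real.log_pos (by linarith)
  have hlog2 : 0 < Real.log 2 := Real.log_pos (by norm_num)
  have hlogN' : 2 * Real.log 2 / ε ≤ Real.log N :=
    le_trans e3 (Real.log_le_log (by nlinarith) hN')
  have hyR : (1 : ℝ) ≤ y := by exact_mod_cast hy
  obtain ⟨l, hl⟩ : ∃ l, l = Real.log y := ⟨_, rfl⟩
  have hl0 : 0 ≤ l := by rw [hl]; exact Real.log_nonneg hyR
  have hlL : l ≤ L := by
    rw [hl, hL]
    exact Real.log_le_log (by linarith) hyx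
  obtain ⟨k, hk⟩ : ∃ k, k = ⌊2 / 3 * l / Real.log N⌋₊ := ⟨_, rfl⟩
  have hk1 : (k : ℝ) * Real.log N ≤ 2 / 3 * l := by
    have := Nat.floor_le (show 0 ≤ 2 / 3 * l / Real.log N by positivity)
    rw [← hk, le_div_iff₀ hlogN] at this
    exact this
  have hk2 : 2 / 3 * l < ((k : ℝ) + 1) * Real.log N := by
    have := Nat.lt_floor_add_one (2 / 3 * l / Real.log N)
    rw [← hk, div_lt_iff₀ hlogN] at this
    exact this
  have hk0 : (0 : ℝ) ≤ k := Nat.cast_nonneg k
  have hQ := Q_ge (k := k) e2 hN2 hN' hPP (by linarith)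
  have hs0 : 0 < Real.sqrt N := Real.sqrt_pos.2 (by linarith)
  have hu0 : 0 < (Real.sqrt N / 2) ^ k := by positivity
  have hQ0 : 0 < (((PP N).powersetCard k).card : ℝ) := lt_of_lt_of_le hu0 hQ
  have hb := DD_bound (N := N) (y := y) (k := k) (by omega) hQ0
  -- exponentials
  have hNexp : (N : ℝ) = Real.exp (Real.log N) := (Real.exp_log (by linarith)).symm
  have hsexp : Real.sqrt N = Real.exp (Real.log N / 2) := by
    rw [← Real.exp_log hs0, Real.log_sqrt (by linarith)]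
  have hyexp : (y : ℝ) = Real.exp l := by rw [hl, Real.exp_log (by linarith)]
  have h2exp : (2 : ℝ) ^ k = Real.exp (k * Real.log 2) := by
    rw [mul_comm, Real.exp_mul, Real.exp_log (by norm_num), Real.rpow_natCast]
  have hNk : (N : ℝ) ^ k = Real.exp (k * Real.log N) := by
    rw [mul_comm, Real.exp_mul, Real.exp_log (by linarith), Real.rpow_natCast]
  have hsk : (Real.sqrt N) ^ k = Real.exp (k * Real.log N / 2) := by
    rw [hsexp, ← Real.exp_nat_mul]
    congr 1; ring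
  have hsL : Real.sqrt N ≤ L := by
    rw [Real.sqrt_le_left (by linarith)]
    nlinarith
  -- first term
  have t1 : ((y + 1 : ℕ) : ℝ) / (((PP N).powersetCard k).card : ℝ) ≤
      2 ^ k * Real.exp (2 / 3 * l) * (2 * Real.sqrt N) := by
    calc ((y + 1 : ℕ) : ℝ) / (((PP N).powersetCard k).card : ℝ)
        ≤ (2 * y) / (Real.sqrt N / 2) ^ k := by
          apply div_le_div₀ (by positivity) _ hu0 hQ
          push_cast; linarith
      _ = 2 ^ k * (2 * (Real.exp l / Real.exp (k * Real.log N / 2))) := by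
          rw [div_pow, hsk, hyexp]
          field_simp
      _ = 2 ^ k * (2 * Real.exp (l - k * Real.log N / 2)) := by rw [← Real.exp_sub]
      _ ≤ 2 ^ k * (2 * (Real.exp (2 / 3 * l) * Real.sqrt N)) := by
          rw [hsexp, ← Real.exp_add]
          gcongr
          linarith
      _ = _ := by ring
  have t2 : 2 ^ k * ((N : ℝ) ^ k * (1 + 2 * k * Real.log N)) ≤
      2 ^ k * Real.exp (2 / 3 * l) * (1 + 4 / 3 * L) := by
    have h5 : (N : ℝ) ^ k ≤ Real.exp (2 / 3 * l) := by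
      rw [hNk]
      exact Real.exp_le_exp.2 hk1
    have h6 : 1 + 2 * (k : ℝ) * Real.log N ≤ 1 + 4 / 3 * L := by linarith
    have h7 : 0 ≤ 1 + 2 * (k : ℝ) * Real.log N := by positivity
    calc 2 ^ k * ((N : ℝ) ^ k * (1 + 2 * k * Real.log N))
        ≤ 2 ^ k * (Real.exp (2 / 3 * l) * (1 + 4 / 3 * L)) := by
          apply mul_le_mul_of_nonneg_left _ (by positivity)
          exact mul_le_mul h5 h6 h7 (Real.exp_pos _).le
      _ = _ := by ring
  have t3 : ((DD N y).card : ℝ) ≤ 2 ^ k * Real.exp (2 / 3 * l) * (10 * L) := by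
    have hp : 0 ≤ 2 ^ k * Real.exp (2 / 3 * l) := by positivity
    calc ((DD N y).card : ℝ) ≤ 2 * (2 ^ k * Real.exp (2 / 3 * l) * (2 * Real.sqrt N) +
          2 ^ k * Real.exp (2 / 3 * l) * (1 + 4 / 3 * L)) := by linarith
      _ = 2 ^ k * Real.exp (2 / 3 * l) * (4 * Real.sqrt N + 2 + 8 / 3 * L) := by ring
      _ ≤ _ := by
        apply mul_le_mul_of_nonneg_left _ hp
        linarith
  have t4 : (2 : ℝ) ^ k ≤ Real.exp (ε / 2 * L) := by
    rw [h2exp]
    apply Real.exp_le_exp.2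
    rw [div_le_iff₀ hε] at hlogN'
    have h5 : (k : ℝ) * (2 * Real.log 2) ≤ (k * Real.log N) * ε := by
      calc (k : ℝ) * (2 * Real.log 2) ≤ k * (Real.log N * ε) := by gcongr
        _ = _ := by ring
    have h6 : (k * Real.log N) * ε ≤ (2 / 3 * L) * ε := by
      apply mul_le_mul_of_nonneg_right _ hε.le
      linarith
    nlinarith
  have hy23 : (y : ℝ) ^ (2 / 3 : ℝ) = Real.exp (2 / 3 * l) := by
    rw [hyexp, ← Real.exp_mul, mul_comm]
  have hxε : x ^ ε = Real.exp (ε / 2 * L) * Real.exp (ε / 2 * L) := by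
    rw [Real.rpow_def_of_pos hx0, ← hL, ← Real.exp_add]
    congr 1; ring
  rw [hy23, hxε]
  calc ((DD N y).card : ℝ) ≤ 2 ^ k * Real.exp (2 / 3 * l) * (10 * L) := t3
    _ ≤ Real.exp (ε / 2 * L) * Real.exp (2 / 3 * l) * Real.exp (ε / 2 * L) := by gcongr
    _ = _ := by ring

end

end Pool.Agent.Lib.MP0b15c0
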