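import Pool.Agent.Lib.MP_0b15c0_nt.Sieve

set_option autoImplicit false

namespace Pool.Agent.Lib.MP0b15c0

noncomputable section

open Finset Real Filter

lemma choose_ge (k : ℕ) : ∀ n : ℕ, k ≤ n → ((n : ℝ) / k) ^ k ≤ (n.choose k : ℝ) := by
  induction k with
  | zero => intro n _; simp
  | succ k ih =>
    intro n hn
    obtain ⟨m, rfl⟩ : ∃ m, n = m + 1 := ⟨n - 1, by omega⟩
    have hkm : k ≤ m := by omega
    have h1 := ih m hkm
    have h2 : ((m : ℝ) + 1) * (m.choose k : ℝ) = ((m + 1).choose (k + 1) : ℝ) * ((k : ℝ) + 1) := by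
      have := Nat.add_one_mul_choose_eq m k
      exact_mod_cast this
    have hk1 : (0 : ℝ) < (k : ℝ) + 1 := by positivity
    have h3 : ((m + 1).choose (k + 1) : ℝ) = ((m : ℝ) + 1) / ((k : ℝ) + 1) * (m.choose k : ℝ) := by
      field_simp
      linarith
    have h4 : (((m : ℝ) + 1) / ((k : ℝ) + 1)) ^ k ≤ ((m : ℝ) / k) ^ k := by
      rcases Nat.eq_zero_or_pos k with h0 | h0
      · subst h0; simp
      · have hk0 : (0 : ℝ) < k := by exact_mod_cast h0
        have hkm' : (k : ℝ) ≤ m := by exact_mod_cast hkm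
        apply pow_le_pow_left₀ (by positivity)
        rw [div_le_div_iff₀ hk1 hk0]
        nlinarith
    push_cast
    rw [h3, pow_succ, mul_comm]
    have h5 : 0 ≤ ((m : ℝ) + 1) / ((k : ℝ) + 1) := by positivity
    exact mul_le_mul_of_nonneg_left (le_trans h4 h1) h5

/-- odd primes up to `N` -/
def PP (N : ℕ) : Finset ℕ := (range (N + 1)).filter (fun p => p.Prime ∧ p ≠ 2)

lemma mem_PP {N p : ℕ} (hp : p ∈ PP N) : p.Prime ∧ Odd p ∧ p ≤ N := by
  unfold PP at hp
  rw [Finset.mem_filter, Finset.mem_range] at hp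
  exact ⟨hp.2.1, hp.2.1.odd_of_ne_two hp.2.2, by omega⟩

lemma card_PP_ge (N : ℕ) : (N * Real.log 2 - Real.log (N + 1)) ≤
    (((PP N).card : ℝ) + 1) * Real.log N := by
  have h1 := Chebyshev.psi_ge N
  have h2 := Chebyshev.psi_le_primeCounting_mul_log N
  have h3 : Nat.primeCounting N ≤ (PP N).card + 1 := by
    unfold Nat.primeCounting Nat.primeCounting'
    rw [Nat.count_eq_card_filter_range]
    have hsub : (range (N + 1)).filter Nat.Prime ⊆ insert 2 (PP N) := by
      intro p hp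
      rw [Finset.mem_filter] at hp
      rw [Finset.mem_insert]
      by_cases h : p = 2
      · left; exact h
      · right
        unfold PP
        rw [Finset.mem_filter]
        exact ⟨hp.1, hp.2, h⟩
    exact le_trans (Finset.card_le_card hsub) (Finset.card_insert_le _ _)
  have h4 : ((Nat.primeCounting N : ℕ) : ℝ) ≤ ((PP N).card : ℝ) + 1 := by exact_mod_cast h3
  have h5 : 0 ≤ Real.log N := by
    rcases Nat.eq_zero_or_pos N with h | h
    · rw [h]; simp
    · exact Real.log_nonneg (by exact_mod_cast h)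
  nlinarith

/-- for large `N`, `#PP ≥ N / (2 log N)` -/
lemma card_PP_large : ∃ N0 : ℕ, ∀ N : ℕ, N0 ≤ N →
    (N : ℝ) / 2 ≤ ((PP N).card : ℝ) * Real.log N := by
  have h1 : ∀ᶠ y : ℝ in atTop, Real.log y ≤ (1 / 20) * y := by
    have := Real.isLittleO_log_id_atTop.def (by norm_num : (0 : ℝ) < 1 / 20)
    filter_upwards [this, eventually_ge_atTop 1] with y hy hy1
    have h2 : 0 ≤ Real.log y := Real.log_nonneg hy1
    simp only [id, Real.norm_eq_abs] at hy
    rw [abs_of_nonneg h2, abs_of_nonneg (by linarith)] at hy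
    exact hy
  obtain ⟨Y, hY⟩ := eventually_atTop.1 h1
  obtain ⟨N1, hN1⟩ := exists_nat_ge Y
  refine ⟨max N1 20, fun N hN => ?_⟩
  have hN20 : (20 : ℝ) ≤ N := by exact_mod_cast le_trans (le_max_right _ _) hN
  have hNY : Y ≤ N := le_trans hN1 (by exact_mod_cast le_trans (le_max_left _ _) hN)
  have e1 := hY N hNY
  have e2 := hY (N + 1) (by linarith)
  have e3 := card_PP_ge N
  have e4 := Real.log_two_gt_d9
  nlinarith

/-- `D` is odd and all Jacobi symbols `(b/D)`, `2 ≤ b ≤ N`, equal `1` -/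
def Triv (N D : ℕ) : Prop := Odd D ∧ ∀ b : ℕ, 2 ≤ b → b ≤ N → jacobiSym (b : ℤ) D = 1

open Classical in
/-- integers with trivial Jacobi symbols -/
def DD (N y : ℕ) : Finset ℕ := (Icc 1 y).filter (fun D => Triv N D)

open Classical in
lemma mem_DD {N y D : ℕ} : D ∈ DD N y ↔ (1 ≤ D ∧ D ≤ y) ∧ Odd D ∧
    ∀ b : ℕ, 2 ≤ b → b ≤ N → jacobiSym (b : ℤ) D = 1 := by
  unfold DD
  rw [Finset.mem_filter, Finset.mem_Icc]
  rfl

lemma JS_one {T : Finset ℕ} {D : ℕ} (h : ∀ p ∈ T, jacobiSym (D : ℤ) p = 1) : JS T D = 1 := by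
  unfold JS
  apply Finset.prod_eq_one
  intro p hp
  rw [h p hp]; norm_num

/-- bound for one residue class -/
lemma DD_class {N y k : ℕ} (hN : 1 ≤ N) (i : ℕ) (hi : i = 1 ∨ i = 3) :
    (((DD N y).filter (fun D => D % 4 = i)).card : ℝ) * (((PP N).powersetCard k).card : ℝ) ^ 2 ≤
      ((y + 1 : ℕ) : ℝ) * (((PP N).powersetCard k).card : ℝ) +
      (((PP N).powersetCard k).card : ℝ) ^ 2 * (2 ^ k * ((N : ℝ) ^ k * (1 + 2 * k * Real.log N))) := by
  have hsub : (DD N y).filter (fun D => D % 4 = i) ⊆ range (y + 1) := by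
    intro D hD
    rw [Finset.mem_filter, mem_DD] at hD
    rw [Finset.mem_range]
    omega
  rcases hi with hi | hi
  · apply sieve hN (PP N) (fun p hp => mem_PP hp) _ hsub (fun _ => 1)
    · intro T _; left; rfl
    · intro T hT D hD
      rw [Finset.mem_powersetCard] at hT
      rw [Finset.mem_filter, mem_DD, hi] at hD
      apply JS_one
      intro p hp
      have hp' := mem_PP (hT.1 hp)
      rw [jacobiSym.quadratic_reciprocity_one_mod_four hD.2 hp'.2.1]
      exact hD.1.2.2 p hp'.1.two_le hp'.2.2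
  · apply sieve hN (PP N) (fun p hp => mem_PP hp) _ hsub
      (fun T => ∏ p ∈ T, (if p % 4 = 3 then (-1 : ℝ) else 1))
    · intro T _
      apply Finset.prod_induction _ (fun z : ℝ => z = 1 ∨ z = -1)
      · rintro a b (ha | ha) (hb | hb) <;> rw [ha, hb] <;> norm_num
      · left; rfl
      · intro p _; split_ifs
        · right; rfl
        · left; rfl
    · intro T hT D hD
      rw [Finset.mem_powersetCard] at hT
      rw [Finset.mem_filter, mem_DD, hi] at hD
      unfold JS
      apply Finset.prod_congr rfl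
      intro p hp
      have hp' := mem_PP (hT.1 hp)
      have h1 := hD.1.2.2 p hp'.1.two_le hp'.2.2
      split_ifs with h3
      · rw [jacobiSym.quadratic_reciprocity_three_mod_four hD.2 h3, h1]; norm_num
      · have h4 : p % 4 = 1 := by
          have := hp'.2.1
          rw [Nat.odd_iff] at this
          omega
        rw [← jacobiSym.quadratic_reciprocity_one_mod_four h4 hD.1.2.1, h1]; norm_num

lemma DD_bound {N y k : ℕ} (hN : 1 ≤ N) (hk : 0 < (((PP N).powersetCard k).card : ℝ)) :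
    ((DD N y).card : ℝ) ≤ 2 * (((y + 1 : ℕ) : ℝ) / (((PP N).powersetCard k).card : ℝ) +
      2 ^ k * ((N : ℝ) ^ k * (1 + 2 * k * Real.log N))) := by
  obtain ⟨Q, hQ⟩ : ∃ Q : ℝ, Q = (((PP N).powersetCard k).card : ℝ) := ⟨_, rfl⟩
  obtain ⟨B, hB⟩ : ∃ B : ℝ, B = 2 ^ k * ((N : ℝ) ^ k * (1 + 2 * k * Real.log N)) := ⟨_, rfl⟩
  rw [← hQ] at hk
  have h1 := DD_class (N := N) (y := y) (k := k) hN 1 (Or.inl rfl)
  have h3 := DD_class (N := N) (y := y) (k := k) hN 3 (Or.inr rfl)
  rw [← hQ, ← hB] at h1 h3 ⊢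
  have hsplit : (DD N y).card ≤ ((DD N y).filter (fun D => D % 4 = 1)).card +
      ((DD N y).filter (fun D => D % 4 = 3)).card := by
    have : DD N y ⊆ (DD N y).filter (fun D => D % 4 = 1) ∪ (DD N y).filter (fun D => D % 4 = 3) := by
      intro D hD
      have hodd := (mem_DD.1 hD).2.1
      rw [Nat.odd_iff] at hodd
      rw [Finset.mem_union, Finset.mem_filter, Finset.mem_filter]
      have : D % 4 = 1 ∨ D % 4 = 3 := by omega
      rcases this with h | h
      · left; exact ⟨hD, h⟩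
      · right; exact ⟨hD, h⟩
    exact le_trans (Finset.card_le_card this) (Finset.card_union_le _ _)
  have hsplit' : ((DD N y).card : ℝ) ≤ (((DD N y).filter (fun D => D % 4 = 1)).card : ℝ) +
      (((DD N y).filter (fun D => D % 4 = 3)).card : ℝ) := by exact_mod_cast hsplit
  have hdiv : ∀ e : ℝ, e * Q ^ 2 ≤ ((y + 1 : ℕ) : ℝ) * Q + Q ^ 2 * B →
      e ≤ ((y + 1 : ℕ) : ℝ) / Q + B := by
    intro e he
    have h5 : ((y + 1 : ℕ) : ℝ) / Q + B = (((y + 1 : ℕ) : ℝ) * Q + Q ^ 2 * B) / Q ^ 2 := by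
      field_simp
    rw [h5, le_div_iff₀ (by positivity)]
    exact he
  have g1 := hdiv _ h1
  have g3 := hdiv _ h3
  linarith

end

end Pool.Agent.Lib.MP0b15c0
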