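import Pool.Agent.Lib.MP_0b15c0_nt.Struct
import Pool.Agent.Lib.MP_0b15c0_nt.DivisorBound

set_option autoImplicit false

namespace Pool.Agent.Lib.MP0b15c0

noncomputable section

open Finset Real

lemma abel_nonneg' (a w : ℕ → ℝ) (X : ℕ) (hw : ∀ k, 1 ≤ k → w (k + 1) ≤ w k)
    (hD : ∀ n, n ≤ X → 0 ≤ ∑ k ∈ Finset.Icc 1 n, a k) :
    ∀ n, n ≤ X → (∑ k ∈ Finset.Icc 1 n, a k) * w (n + 1) ≤ ∑ k ∈ Finset.Icc 1 n, a k * w k := by
  intro n
  induction n with
  | zero => simp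
  | succ n ih =>
    intro hn
    rw [Finset.sum_Icc_succ_top (by omega), Finset.sum_Icc_succ_top (by omega)]
    have h1 := hD (n + 1) hn
    rw [Finset.sum_Icc_succ_top (by omega)] at h1
    have h2 := hw (n + 1) (by omega)
    have h3 : (∑ k ∈ Finset.Icc 1 n, a k + a (n + 1)) * w (n + 1 + 1) ≤
        (∑ k ∈ Finset.Icc 1 n, a k + a (n + 1)) * w (n + 1) := mul_le_mul_of_nonneg_left h2 h1
    linarith [h3, ih (by omega), add_mul (∑ k ∈ Finset.Icc 1 n, a k) (a (n + 1)) (w (n + 1))]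

lemma pow_diff {k : ℕ} (hk : 1 ≤ k) :
    (k : ℝ) ^ (2 / 3 : ℝ) - ((k : ℝ) - 1) ^ (2 / 3 : ℝ) ≤ 1 / (k : ℝ) ^ (1 / 3 : ℝ) := by
  have hk0 : (0 : ℝ) < k := by exact_mod_cast hk
  have e1 : (k : ℝ) ^ (2 / 3 : ℝ) = k / (k : ℝ) ^ (1 / 3 : ℝ) := by
    rw [show (2 / 3 : ℝ) = 1 - 1 / 3 by norm_num, Real.rpow_sub hk0, Real.rpow_one]
  have hk3 : 0 < (k : ℝ) ^ (1 / 3 : ℝ) := Real.rpow_pos_of_pos hk0 _
  have e2 : ((k : ℝ) - 1) / (k : ℝ) ^ (1 / 3 : ℝ) ≤ ((k : ℝ) - 1) ^ (2 / 3 : ℝ) := by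
    rcases Nat.eq_or_lt_of_le hk with h | h
    · rw [← h]
      norm_num
    · have hk1 : (0 : ℝ) < (k : ℝ) - 1 := by
        have : (1 : ℝ) < k := by exact_mod_cast h
        linarith
      have e3 : ((k : ℝ) - 1) ^ (2 / 3 : ℝ) = ((k : ℝ) - 1) / ((k : ℝ) - 1) ^ (1 / 3 : ℝ) := by
        rw [show (2 / 3 : ℝ) = 1 - 1 / 3 by norm_num, Real.rpow_sub hk1, Real.rpow_one]
      rw [e3]
      apply div_le_div_of_nonneg_left hk1.le (Real.rpow_pos_of_pos hk1 _)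
      exact Real.rpow_le_rpow hk1.le (by linarith) (by norm_num)
  rw [e1]
  have : (k : ℝ) / (k : ℝ) ^ (1 / 3 : ℝ) = ((k : ℝ) - 1) / (k : ℝ) ^ (1 / 3 : ℝ) +
      1 / (k : ℝ) ^ (1 / 3 : ℝ) := by
    field_simp; ring
  linarith

lemma sum_pow_diff (n : ℕ) :
    ∑ k ∈ Finset.Icc 1 n, ((k : ℝ) ^ (2 / 3 : ℝ) - ((k : ℝ) - 1) ^ (2 / 3 : ℝ)) =
      (n : ℝ) ^ (2 / 3 : ℝ) := by
  induction n with
  | zero => simp
  | succ n ih =>
    rw [Finset.sum_Icc_succ_top (by omega), ih]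
    push_cast
    rw [add_sub_cancel_right]
    ring

lemma harmonic_le (X : ℕ) : ∑ k ∈ Finset.Icc 1 X, (1 : ℝ) / k ≤ 1 + Real.log X := by
  have h := harmonic_le_one_add_log X
  rw [harmonic_eq_sum_Icc] at h
  push_cast at h
  simp only [one_div]
  exact h

open Classical in
lemma card_DD_sum (N n : ℕ) : ((DD N n).card : ℝ) =
    ∑ k ∈ Finset.Icc 1 n, (if Triv N k then (1 : ℝ) else 0) := by
  unfold DD
  rw [Finset.card_filter]
  push_cast
  rfl

open Classical in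
lemma sum_DD {N X : ℕ} (hX : 1 ≤ X) {B : ℝ} (hB : 0 ≤ B)
    (h : ∀ y : ℕ, 1 ≤ y → y ≤ X → ((DD N y).card : ℝ) ≤ (y : ℝ) ^ (2 / 3 : ℝ) * B) :
    ∑ m ∈ DD N X, 1 / Real.sqrt m ≤ B * ((X : ℝ) ^ (1 / 6 : ℝ) * (1 + Real.log X)) := by
  have h1 := abel_nonneg' (fun k => B * ((k : ℝ) ^ (2 / 3 : ℝ) - ((k : ℝ) - 1) ^ (2 / 3 : ℝ)) -
      (if Triv N k then (1 : ℝ) else 0)) (fun k => 1 / Real.sqrt k) X
    (by
      intro k hk
      have hk0 : (0 : ℝ) < k := by exact_mod_cast hk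
      apply div_le_div_of_nonneg_left zero_le_one (Real.sqrt_pos.2 hk0)
      apply Real.sqrt_le_sqrt
      push_cast; linarith)
    (by
      intro n hn
      rw [Finset.sum_sub_distrib, ← Finset.mul_sum, sum_pow_diff, ← card_DD_sum]
      rcases Nat.eq_zero_or_pos n with h0 | h0
      · subst h0
        have : DD N 0 = ∅ := by
          unfold DD
          simp
        rw [this]; simp
      · have := h n h0 hn
        linarith) X le_rfl
  have h2 : 0 ≤ (∑ k ∈ Finset.Icc 1 X, (B * ((k : ℝ) ^ (2 / 3 : ℝ) - ((k : ℝ) - 1) ^ (2 / 3 : ℝ)) -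
      (if Triv N k then (1 : ℝ) else 0))) * (1 / Real.sqrt ((X + 1 : ℕ) : ℝ)) := by
    apply mul_nonneg _ (by positivity)
    rw [Finset.sum_sub_distrib, ← Finset.mul_sum, sum_pow_diff, ← card_DD_sum]
    have := h X hX le_rfl
    linarith
  have h3 := le_trans h2 h1
  simp only [sub_mul] at h3
  rw [Finset.sum_sub_distrib] at h3
  have h4 : ∑ m ∈ DD N X, 1 / Real.sqrt m =
      ∑ k ∈ Finset.Icc 1 X, (if Triv N k then (1 : ℝ) else 0) * (1 / Real.sqrt k) := by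
    unfold DD
    rw [Finset.sum_filter]
    apply Finset.sum_congr rfl
    intro k _
    split_ifs <;> simp
  rw [h4]
  refine le_trans (by linarith : _ ≤ ∑ k ∈ Finset.Icc 1 X,
    B * ((k : ℝ) ^ (2 / 3 : ℝ) - ((k : ℝ) - 1) ^ (2 / 3 : ℝ)) * (1 / Real.sqrt k)) ?_
  calc ∑ k ∈ Finset.Icc 1 X, B * ((k : ℝ) ^ (2 / 3 : ℝ) - ((k : ℝ) - 1) ^ (2 / 3 : ℝ)) *
        (1 / Real.sqrt k)
      ≤ ∑ k ∈ Finset.Icc 1 X, B * ((X : ℝ) ^ (1 / 6 : ℝ) * (1 / k)) := by
        apply Finset.sum_le_sum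
        intro k hk
        rw [Finset.mem_Icc] at hk
        have hk0 : (0 : ℝ) < k := by exact_mod_cast hk.1
        have e1 := pow_diff hk.1
        have e2 : 1 / (k : ℝ) ^ (1 / 3 : ℝ) * (1 / Real.sqrt k) = (k : ℝ) ^ (1 / 6 : ℝ) * (1 / k) := by
          have f1 : 1 / (k : ℝ) ^ (1 / 3 : ℝ) = (k : ℝ) ^ (-(1 / 3) : ℝ) := by
            rw [Real.rpow_neg hk0.le, one_div]
          have f2 : 1 / Real.sqrt k = (k : ℝ) ^ (-(1 / 2) : ℝ) := by
            rw [Real.sqrt_eq_rpow, Real.rpow_neg hk0.le, one_div]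
          have f3 : 1 / (k : ℝ) = (k : ℝ) ^ (-1 : ℝ) := by
            rw [Real.rpow_neg_one, one_div]
          rw [f1, f2, f3, ← Real.rpow_add hk0, ← Real.rpow_add hk0]
          norm_num
        have e3 : (k : ℝ) ^ (1 / 6 : ℝ) ≤ (X : ℝ) ^ (1 / 6 : ℝ) :=
          Real.rpow_le_rpow hk0.le (by exact_mod_cast hk.2) (by norm_num)
        have e4 : 0 ≤ 1 / Real.sqrt (k : ℝ) := by positivity
        calc B * ((k : ℝ) ^ (2 / 3 : ℝ) - ((k : ℝ) - 1) ^ (2 / 3 : ℝ)) * (1 / Real.sqrt k)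
            = B * (((k : ℝ) ^ (2 / 3 : ℝ) - ((k : ℝ) - 1) ^ (2 / 3 : ℝ)) * (1 / Real.sqrt k)) := by ring
          _ ≤ B * (1 / (k : ℝ) ^ (1 / 3 : ℝ) * (1 / Real.sqrt k)) := by gcongr
          _ = B * ((k : ℝ) ^ (1 / 6 : ℝ) * (1 / k)) := by rw [e2]
          _ ≤ _ := by gcongr
    _ = B * ((X : ℝ) ^ (1 / 6 : ℝ) * ∑ k ∈ Finset.Icc 1 X, (1 : ℝ) / k) := by
        rw [← Finset.mul_sum, ← Finset.mul_sum]
    _ ≤ _ := by
        have := harmonic_le X
        gcongr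

/-- the second family: `n = p m` -/
lemma card_pm {x N : ℕ} {ε C : ℝ} (hx : 1 ≤ x) (hε : 0 < ε)
    (hC : ∀ n : ℕ, n ≠ 0 → ((n.divisors.card : ℕ) : ℝ) ≤ C * (n : ℝ) ^ ε) (hC0 : 0 < C)
    (E : Finset ℕ)
    (hE : ∀ n ∈ E, n ≤ x ∧ ∃ p m : ℕ, p.Prime ∧ n = p * m ∧ 2 ≤ m ∧ Triv N m ∧
      p < (Nat.gcd (p - 1) (m - 1)) ^ 2) :
    (E.card : ℝ) ≤ C * (x : ℝ) ^ ε * Real.sqrt x * ∑ m ∈ DD N x, 1 / Real.sqrt m := by
  classical
  have hsub : E ⊆ ((DD N x).filter (fun m => 2 ≤ m)).biUnion (fun m =>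
      ((m - 1).divisors ×ˢ Finset.Icc 1 ⌊Real.sqrt ((x : ℝ) / m)⌋₊).image
        (fun gh => (1 + gh.1 * gh.2) * m)) := by
    intro n hn
    obtain ⟨hnx, p, m, hp, hnm, hm, hT, hg⟩ := hE n hn
    have hp2 := hp.two_le
    rw [Finset.mem_biUnion]
    refine ⟨m, ?_, ?_⟩
    · rw [Finset.mem_filter, mem_DD]
      refine ⟨⟨⟨by omega, ?_⟩, hT.1, hT.2⟩, hm⟩
      calc m ≤ p * m := Nat.le_mul_of_pos_left m (by omega)
        _ ≤ x := hnm ▸ hnx
    · rw [Finset.mem_image]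
      obtain ⟨g, hgdef⟩ : ∃ g, g = Nat.gcd (p - 1) (m - 1) := ⟨_, rfl⟩
      rw [← hgdef] at hg
      obtain ⟨h, hh⟩ : g ∣ p - 1 := hgdef ▸ Nat.gcd_dvd_left _ _
      refine ⟨(g, h), ?_, ?_⟩
      · rw [Finset.mem_product, Nat.mem_divisors, Finset.mem_Icc]
        refine ⟨⟨hgdef ▸ Nat.gcd_dvd_right _ _, by omega⟩, ?_, ?_⟩
        · simp only
          rcases Nat.eq_zero_or_pos h with h0 | h0
          · rw [h0, mul_zero] at hh; omega
          · exact h0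
        · simp only
          apply Nat.le_floor
          apply Real.le_sqrt_of_sq_le
          have hm0 : (0 : ℝ) < m := by exact_mod_cast (by omega : 0 < m)
          rw [le_div_iff₀ hm0]
          -- h^2 ≤ p
          have h1 : h ^ 2 ≤ p := by
            by_contra hcon
            rw [not_le] at hcon
            have h2 : (g * h) ^ 2 = g ^ 2 * h ^ 2 := by ring
            have h3 : p * p < g ^ 2 * h ^ 2 := by
              calc p * p < g ^ 2 * p := Nat.mul_lt_mul_of_pos_right hg (by omega)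
                _ ≤ g ^ 2 * h ^ 2 := Nat.mul_le_mul_left _ hcon.le
            rw [← h2, ← hh] at h3
            have h4 : (p - 1) ^ 2 ≤ p * p := by
              rw [pow_two]
              exact Nat.mul_le_mul (by omega) (by omega)
            omega
          have h5 : h ^ 2 * m ≤ x := by
            calc h ^ 2 * m ≤ p * m := Nat.mul_le_mul_right m h1
              _ ≤ x := hnm ▸ hnx
          exact_mod_cast h5
      · simp only
        rw [← hh, hnm]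
        congr 1
        omega
  have hx0 : (0 : ℝ) < x := by exact_mod_cast hx
  calc (E.card : ℝ) ≤ ∑ m ∈ (DD N x).filter (fun m => 2 ≤ m),
        (C * (x : ℝ) ^ ε * Real.sqrt x) * (1 / Real.sqrt m) := by
        have h1 := le_trans (Finset.card_le_card hsub) Finset.card_biUnion_le
        have h1' : (E.card : ℝ) ≤ ∑ m ∈ (DD N x).filter (fun m => 2 ≤ m),
            ((((m - 1).divisors ×ˢ Finset.Icc 1 ⌊Real.sqrt ((x : ℝ) / m)⌋₊).image
            (fun gh : ℕ × ℕ => (1 + gh.1 * gh.2) * m)).card : ℝ) := by exact_mod_cast h1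
        refine le_trans h1' ?_
        apply Finset.sum_le_sum
        intro m hm
        rw [Finset.mem_filter, mem_DD] at hm
        have hm0 : (0 : ℝ) < m := by exact_mod_cast (by omega : 0 < m)
        have h2 : ((((m - 1).divisors ×ˢ Finset.Icc 1 ⌊Real.sqrt ((x : ℝ) / m)⌋₊).image
          (fun gh : ℕ × ℕ => (1 + gh.1 * gh.2) * m)).card : ℝ) ≤
            (((m - 1).divisors.card : ℕ) : ℝ) * Real.sqrt ((x : ℝ) / m) := by
          have h3 := Finset.card_image_le (s := (m - 1).divisors ×ˢ Finset.Icc 1 ⌊Real.sqrt ((x : ℝ) / m)⌋₊)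
            (f := fun gh : ℕ × ℕ => (1 + gh.1 * gh.2) * m)
          rw [Finset.card_product, Nat.card_Icc, Nat.add_sub_cancel] at h3
          have h4 : ((((m - 1).divisors ×ˢ Finset.Icc 1 ⌊Real.sqrt ((x : ℝ) / m)⌋₊).image
          (fun gh : ℕ × ℕ => (1 + gh.1 * gh.2) * m)).card : ℝ) ≤
            (((m - 1).divisors.card : ℕ) : ℝ) * ((⌊Real.sqrt ((x : ℝ) / m)⌋₊ : ℕ) : ℝ) := by
            exact_mod_cast h3
          refine le_trans h4 ?_
          have h5 := Nat.floor_le (Real.sqrt_nonneg ((x : ℝ) / m))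
          gcongr
        refine le_trans h2 ?_
        have h6 := hC (m - 1) (by omega)
        have h7 : ((m - 1 : ℕ) : ℝ) ^ ε ≤ (x : ℝ) ^ ε := by
          apply Real.rpow_le_rpow (Nat.cast_nonneg _) _ hε.le
          exact_mod_cast (by omega : m - 1 ≤ x)
        rw [Real.sqrt_div hx0.le]
        calc (((m - 1).divisors.card : ℕ) : ℝ) * (Real.sqrt x / Real.sqrt m)
            ≤ (C * (x : ℝ) ^ ε) * (Real.sqrt x / Real.sqrt m) := by
              apply mul_le_mul_of_nonneg_right _ (by positivity)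
              exact le_trans h6 (by gcongr)
          _ = _ := by ring
    _ ≤ ∑ m ∈ DD N x, (C * (x : ℝ) ^ ε * Real.sqrt x) * (1 / Real.sqrt m) := by
        apply Finset.sum_le_sum_of_subset_of_nonneg (Finset.filter_subset _ _)
        intro m _ _
        positivity
    _ = _ := by rw [← Finset.mul_sum]

end

end Pool.Agent.Lib.MP0b15c0
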