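import Pool.Agent.Lib.MP_0b15c0_nt.SBound

set_option autoImplicit false

namespace Pool.Agent.Lib.MP0b15c0

noncomputable section

open Finset Real

/-- exclusion of very small parameters: `exp(sqrt(x/2)) < 3x` for `1 ≤ x ≤ 45`. -/
lemma exp_small {x : ℝ} (h1 : 1 ≤ x) (h2 : x ≤ 45) : Real.exp (Real.sqrt (x / 2)) < 3 * x := by
  obtain ⟨s, hs⟩ : ∃ s, s = Real.sqrt (x / 2) := ⟨_, rfl⟩
  have hs2 : s ^ 2 = x / 2 := by rw [hs]; exact Real.sq_sqrt (by linarith)
  have hs0 : 0 ≤ s := by rw [hs]; exact Real.sqrt_nonneg _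
  have hx : 3 * x = 6 * s ^ 2 := by rw [hs2]; ring
  rw [← hs, hx]
  have hlow : 7 / 10 ≤ s := by
    apply le_of_sq_le_sq _ hs0
    rw [hs2]; linarith
  have hup : s ≤ 19 / 4 := by
    apply le_of_sq_le_sq _ (by norm_num)
    rw [hs2]; linarith
  have e1 := Real.exp_one_lt_d9
  have e0 : 0 < Real.exp 1 := Real.exp_pos 1
  have hpow : ∀ n : ℕ, Real.exp (n : ℝ) = Real.exp 1 ^ n := by
    intro n
    rw [← Real.exp_nat_mul, mul_one]
  have hquarter : ∀ (n : ℕ) (c : ℝ), 0 ≤ c → (2.7182818286 : ℝ) ^ n < c ^ 4 →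
      Real.exp ((n : ℝ) / 4) < c := by
    intro n c hc h
    apply lt_of_pow_lt_pow_left₀ 4 hc
    have : Real.exp ((n : ℝ) / 4) ^ 4 = Real.exp 1 ^ n := by
      rw [← Real.exp_nat_mul, ← hpow]
      congr 1
      push_cast
      ring
    rw [this]
    refine lt_of_le_of_lt ?_ h
    gcongr
  rcases le_total s 1 with h | h
  · have : Real.exp s ≤ Real.exp 1 := Real.exp_le_exp.2 h
    have hx1 : 3 ≤ 6 * s ^ 2 := by rw [← hx]; linarith
    linarith
  rcases le_total s (7 / 4) with h' | h'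
  · have : Real.exp s ≤ Real.exp (((7 : ℕ) : ℝ) / 4) := Real.exp_le_exp.2 (by push_cast; exact h')
    have h3 := hquarter 7 6 (by norm_num) (by norm_num)
    nlinarith
  rcases le_total s (11 / 4) with h'' | h''
  · have : Real.exp s ≤ Real.exp (((11 : ℕ) : ℝ) / 4) := Real.exp_le_exp.2 (by push_cast; exact h'')
    have h3 := hquarter 11 18 (by norm_num) (by norm_num)
    nlinarith
  rcases le_total s (15 / 4) with h3' | h3'
  · have : Real.exp s ≤ Real.exp (((15 : ℕ) : ℝ) / 4) := Real.exp_le_exp.2 (by push_cast; exact h3')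
    have h3 := hquarter 15 45 (by norm_num) (by norm_num)
    nlinarith
  rcases le_total s 4 with h4' | h4'
  · have : Real.exp s ≤ Real.exp (((16 : ℕ) : ℝ) / 4) := Real.exp_le_exp.2 (by push_cast; linarith)
    have h3 := hquarter 16 60 (by norm_num) (by norm_num)
    nlinarith
  rcases le_total s (9 / 2) with h5' | h5'
  · have : Real.exp s ≤ Real.exp (((18 : ℕ) : ℝ) / 4) := Real.exp_le_exp.2 (by push_cast; linarith)
    have h3 := hquarter 18 95 (by norm_num) (by norm_num)
    nlinarith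
  · have : Real.exp s ≤ Real.exp (((19 : ℕ) : ℝ) / 4) := Real.exp_le_exp.2 (by push_cast; linarith)
    have h3 := hquarter 19 120 (by norm_num) (by norm_num)
    nlinarith

/-- the analytic heart: many smooth numbers below `q`. -/
lemma smooth_count {n q N : ℕ} (hq : N < q) (hn : 3 * q ≤ n) (hN1 : 1 ≤ N)
    (hN : 2 * (Real.log n) ^ 2 < (N : ℝ) + 1) : Real.sqrt q ≤ ((A N (q - 1)).card : ℝ) := by
  have hq1 : 1 ≤ q := by omega
  have hn0 : (0 : ℝ) < n := by exact_mod_cast (by omega : 0 < n)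
  have hlogn : 0 ≤ Real.log n := Real.log_nonneg (by exact_mod_cast (by omega : 1 ≤ n))
  have hsq : Real.log n ≤ Real.sqrt (((N : ℝ) + 1) / 2) := by
    apply Real.le_sqrt_of_sq_le
    linarith
  have hqn : Real.log q + Real.log 3 ≤ Real.log n := by
    rw [← Real.log_mul (by exact_mod_cast (by omega : q ≠ 0)) (by norm_num)]
    apply Real.log_le_log
    · exact_mod_cast (by omega : 0 < q * 3)
    · exact_mod_cast (by omega : q * 3 ≤ n)
  -- N + 1 > 45
  have hNbig : (45 : ℝ) < (N : ℝ) + 1 := by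
    by_contra hcon
    rw [not_lt] at hcon
    have h1 : (1 : ℝ) ≤ (N : ℝ) + 1 := by linarith [(Nat.cast_nonneg N : (0 : ℝ) ≤ N)]
    have h2 := exp_small h1 hcon
    have h3 : (n : ℝ) ≤ Real.exp (Real.sqrt (((N : ℝ) + 1) / 2)) := by
      rw [← Real.log_le_iff_le_exp hn0]; exact hsq
    have h4 : 3 * ((N : ℝ) + 1) ≤ n := by
      have : 3 * (N + 1) ≤ n := by omega
      exact_mod_cast this
    linarith
  have hN32 : 45 ≤ N := by
    have : (45 : ℝ) < ((N + 1 : ℕ) : ℝ) := by push_cast; exact hNbig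
    have h2 : 45 < N + 1 := by exact_mod_cast this
    omega
  have hy : (65 / 10 : ℝ) ≤ Real.sqrt ((N : ℝ) + 1) := by
    apply Real.le_sqrt_of_sq_le
    have : (46 : ℝ) ≤ (N : ℝ) + 1 := by
      have : (45 : ℝ) ≤ N := by exact_mod_cast hN32
      linarith
    norm_num
    linarith
  have hhalf : Real.sqrt (((N : ℝ) + 1) / 2) ≤ 70711 / 100000 * Real.sqrt ((N : ℝ) + 1) := by
    have h1 : ((N : ℝ) + 1) / 2 ≤ (70711 / 100000) ^ 2 * ((N : ℝ) + 1) := by
      have : (0 : ℝ) ≤ (N : ℝ) + 1 := by positivity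
      nlinarith
    calc Real.sqrt (((N : ℝ) + 1) / 2) ≤ Real.sqrt ((70711 / 100000) ^ 2 * ((N : ℝ) + 1)) :=
          Real.sqrt_le_sqrt h1
      _ = 70711 / 100000 * Real.sqrt ((N : ℝ) + 1) := by
          rw [Real.sqrt_mul (by positivity), Real.sqrt_sq (by norm_num)]
  have hlog3 : (1 : ℝ) ≤ Real.log 3 := by
    rw [Real.le_log_iff_exp_le (by norm_num)]
    linarith [Real.exp_one_lt_d9]
  have hS := S_ge N hN1
  have hlogq : 143 / 100 * Real.log q ≤ S N := by
    have h5 : Real.log q ≤ 70711 / 100000 * Real.sqrt ((N : ℝ) + 1) - 1 := by linarith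
    linarith
  -- now the two cases for q - 1
  rcases Nat.lt_or_ge N (q - 1) with h | h
  · have hcast : ((q - 1 : ℕ) : ℝ) + 1 = q := by
      have : q - 1 + 1 = q := by omega
      exact_mod_cast this
    have hlog' : Real.log ((q - 1 : ℕ) : ℝ) ≤ Real.log q := by
      apply Real.log_le_log
      · exact_mod_cast (by omega : 0 < q - 1)
      · exact_mod_cast (by omega : q - 1 ≤ q)
    have := card_top hN1 h (by linarith) (by omega)
    rw [hcast] at this
    exact this
  · have hqN : q - 1 = N := by omega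
    rw [hqN, card_A_small le_rfl]
    apply Real.sqrt_le_iff.2
    have h32 : (45 : ℝ) ≤ N := by exact_mod_cast hN32
    constructor
    · positivity
    · have : (q : ℝ) = N + 1 := by
        have : q = N + 1 := by omega
        rw [this]; push_cast; ring
      rw [this]
      nlinarith

end

end Pool.Agent.Lib.MP0b15c0
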