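import Mathlib

set_option autoImplicit false

namespace Pool.Agent.Lib.MP0b15c0

noncomputable section

open Finset Real ZMod
open scoped NumberTheorySymbols

/-- the Jacobi symbol `n ↦ (n/s)` as a Dirichlet character -/
def jac (s : ℕ) [NeZero s] : DirichletCharacter ℂ s where
  toFun a := ((jacobiSym ((a.val : ℕ) : ℤ) s : ℤ) : ℂ)
  map_one' := by
    have h : jacobiSym (((1 : ZMod s).val : ℕ) : ℤ) s = 1 := by
      rw [ZMod.val_one_eq_one_mod]
      have := (jacobiSym.mod_left 1 s)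
      rw [jacobiSym.one_left] at this
      rw [this]
      push_cast
      rfl
    rw [h]; norm_num
  map_mul' a b := by
    have h : jacobiSym (((a * b).val : ℕ) : ℤ) s =
        jacobiSym ((a.val : ℕ) : ℤ) s * jacobiSym ((b.val : ℕ) : ℤ) s := by
      rw [ZMod.val_mul, ← jacobiSym.mul_left, jacobiSym.mod_left (_ * _)]
      push_cast
      rfl
    rw [h]; push_cast; ring
  map_nonunit' a ha := by
    have h : jacobiSym ((a.val : ℕ) : ℤ) s = 0 := by
      rw [jacobiSym.eq_zero_iff_not_coprime]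
      intro hcop
      apply ha
      have : IsUnit ((a.val : ℕ) : ZMod s) := by
        rw [ZMod.isUnit_iff_coprime]
        exact hcop
      rwa [ZMod.natCast_zmod_val] at this
    rw [h]; norm_num

lemma jac_natCast (s : ℕ) [NeZero s] (n : ℕ) :
    jac s (n : ZMod s) = ((jacobiSym (n : ℤ) s : ℤ) : ℂ) := by
  change ((jacobiSym (((n : ZMod s).val : ℕ) : ℤ) s : ℤ) : ℂ) = _
  rw [ZMod.val_natCast]
  congr 1
  rw [jacobiSym.mod_left (n : ℤ)]
  push_cast
  rfl

lemma jac_quadratic (s : ℕ) [NeZero s] : MulChar.IsQuadratic (jac s) := by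
  intro a
  change ((jacobiSym ((a.val : ℕ) : ℤ) s : ℤ) : ℂ) = 0 ∨ _ ∨ _
  rcases jacobiSym.trichotomy ((a.val : ℕ) : ℤ) s with h | h | h
  · left; rw [h]; norm_num
  · right; left; change ((jacobiSym ((a.val : ℕ) : ℤ) s : ℤ) : ℂ) = 1; rw [h]; norm_num
  · right; right; change ((jacobiSym ((a.val : ℕ) : ℤ) s : ℤ) : ℂ) = -1; rw [h]; norm_num

/-- existence of an integer with prescribed behaviour -/
lemma exists_neg {p m : ℕ} (hp : p.Prime) (hp2 : p ≠ 2) (hcop : Nat.Coprime p m) :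
    ∃ u : ℕ, u ≡ 1 [MOD m] ∧ jacobiSym (u : ℤ) p = -1 := by
  have : Fact p.Prime := ⟨hp⟩
  obtain ⟨a, ha⟩ := quadraticChar_exists_neg_one (F := ZMod p) (by
    rw [ZMod.ringChar_zmod_n]; exact hp2)
  obtain ⟨u, hu1, hu2⟩ := Nat.chineseRemainder hcop a.val 1
  refine ⟨u, hu2, ?_⟩
  rw [← jacobiSym.legendreSym.to_jacobiSym]
  unfold legendreSym
  have e : ((u : ℤ) : ZMod p) = a := by
    have h1 : (u : ZMod p) = (a.val : ZMod p) := (ZMod.natCast_eq_natCast_iff _ _ _).2 hu1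
    rw [Int.cast_natCast, h1, ZMod.natCast_zmod_val]
  rw [e]
  exact ha

lemma jac_primitive {s : ℕ} [NeZero s] (hodd : Odd s) (hsq : Squarefree s) :
    (jac s).IsPrimitive := by
  rw [DirichletCharacter.isPrimitive_def]
  have hdvd := DirichletCharacter.conductor_dvd_level (jac s)
  by_contra hne
  obtain ⟨f, hf⟩ : ∃ f, f = (jac s).conductor := ⟨_, rfl⟩
  rw [← hf] at hdvd hne
  obtain ⟨c, hc⟩ := hdvd
  have hs0 : s ≠ 0 := NeZero.ne s
  have hc1 : c ≠ 1 := by
    intro h; rw [h, mul_one] at hc; exact hne hc.symm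
  obtain ⟨p, hp, hpc⟩ := Nat.exists_prime_and_dvd hc1
  obtain ⟨m, hm⟩ : p ∣ s := hc ▸ Dvd.dvd.mul_left hpc f
  have hp2 : p ≠ 2 := by
    intro h
    rw [h] at hm
    rw [Nat.odd_iff] at hodd
    omega
  have hm0 : m ≠ 0 := by intro h; rw [h, mul_zero] at hm; exact hs0 hm
  have hcop : Nat.Coprime p m := by
    have := Nat.squarefree_mul_iff.1 (hm ▸ hsq)
    exact this.1
  have hfm : f ∣ m := by
    obtain ⟨c', hc'⟩ := hpc
    refine ⟨c', ?_⟩
    have : p * m = p * (f * c') := by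
      rw [← hm, hc, hc']; ring
    exact Nat.eq_of_mul_eq_mul_left hp.pos this
  obtain ⟨u, hu1, hu2⟩ := exists_neg hp hp2 hcop
  have hneF : NeZero p := ⟨hp.ne_zero⟩
  have hneM : NeZero m := ⟨hm0⟩
  -- J(u | s) = -1
  have hJm : jacobiSym (u : ℤ) m = 1 := by
    have h1 : jacobiSym (u : ℤ) m = jacobiSym ((1 : ℕ) : ℤ) m := by
      apply jacobiSym.mod_left'
      have := hu1
      unfold Nat.ModEq at this
      exact_mod_cast this
    rw [h1]; push_cast; exact jacobiSym.one_left m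
  have hJs : jacobiSym (u : ℤ) s = -1 := by
    rw [hm, jacobiSym.mul_right, hu2, hJm]; norm_num
  -- u is a unit mod s
  have hcopus : Nat.Coprime u s := by
    by_contra h
    have : jacobiSym (u : ℤ) s = 0 := by
      rw [jacobiSym.eq_zero_iff_not_coprime]
      exact h
    rw [this] at hJs
    norm_num at hJs
  have hfac : DirichletCharacter.FactorsThrough (jac s) f := by
    rw [hf]; exact DirichletCharacter.factorsThrough_conductor (jac s)
  have hfs : f ∣ s := ⟨c, hc⟩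
  rw [DirichletCharacter.factorsThrough_iff_ker_unitsMap hfs] at hfac
  have hker : ZMod.unitOfCoprime u hcopus ∈ (ZMod.unitsMap hfs).ker := by
    rw [MonoidHom.mem_ker]
    ext
    rw [ZMod.unitsMap_def, Units.coe_map, ZMod.coe_unitOfCoprime]
    simp only [MonoidHom.coe_coe, map_natCast, Units.val_one]
    have h2 : u ≡ 1 [MOD f] := hu1.of_dvd hfm
    have := (ZMod.natCast_eq_natCast_iff u 1 f).2 h2
    simpa using this
  have h3 := hfac hker
  rw [MonoidHom.mem_ker] at h3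
  have h4 := congrArg (fun x : ℂˣ => (x : ℂ)) h3
  simp only [MulChar.coe_toUnitHom, ZMod.coe_unitOfCoprime, Units.val_one] at h4
  rw [jac_natCast, hJs] at h4
  norm_num at h4

lemma gauss_norm {N : ℕ} [NeZero N] {χ : DirichletCharacter ℂ N} (hχ : χ.IsPrimitive)
    (hq : MulChar.IsQuadratic χ) : ‖gaussSum χ (stdAddChar (N := N))‖ = Real.sqrt N := by
  obtain ⟨G, hG⟩ : ∃ G, G = gaussSum χ (stdAddChar (N := N)) := ⟨_, rfl⟩
  have hinv : χ⁻¹ = χ := hq.inv
  have hF : ∀ k, ZMod.dft χ k = χ (-k) * G := by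
    intro k
    have := DirichletCharacter.IsPrimitive.fourierTransform_eq_inv_mul_gaussSum hχ k
    rw [hinv, ← hG] at this
    exact this
  have hFF : ZMod.dft (ZMod.dft χ) (1 : ZMod N) = G ^ 2 := by
    have e1 : ZMod.dft χ = fun k => χ (-k) * G := funext hF
    have e2 : ZMod.dft (fun k => χ (-k) * G) = fun k => ZMod.dft (fun k => χ (-k)) k * G :=
      ZMod.dft_mul_const (fun k => χ (-k)) G
    rw [e1, e2]
    simp only
    have e3 := ZMod.dft_comp_neg (Φ := (χ : ZMod N → ℂ))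
    rw [e3]
    simp only
    rw [hF, neg_neg, map_one]
    ring
  have hdd := congrFun (ZMod.dft_dft (χ : ZMod N → ℂ)) 1
  rw [hFF] at hdd
  simp only [smul_eq_mul] at hdd
  have hneg : ‖χ (-1)‖ = 1 := by
    have h1 : χ (-1) * χ (-1) = 1 := by
      rw [← map_mul]; simp
    have h2 : ‖χ (-1)‖ * ‖χ (-1)‖ = 1 := by
      rw [← norm_mul, h1, norm_one]
    nlinarith [norm_nonneg (χ (-1))]
  have h5 : ‖G‖ ^ 2 = N := by
    rw [← norm_pow, hdd, norm_mul, hneg, mul_one]
    simp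
  rw [← hG, ← h5, Real.sqrt_sq (norm_nonneg _)]

/-- geometric sums of additive characters -/
lemma geom_bound {N : ℕ} [NeZero N] (k : ZMod N) (hk : k ≠ 0) (M : ℕ) :
    ‖∑ n ∈ range M, stdAddChar (N := N) (k * n)‖ ≤
      (N : ℝ) / 2 * (1 / (k.val : ℝ) + 1 / ((N : ℝ) - k.val)) := by
  have hkv : 0 < k.val := Nat.pos_of_ne_zero (fun h => hk ((ZMod.val_eq_zero k).1 h))
  have hkN : k.val < N := ZMod.val_lt k
  have hN : (0 : ℝ) < N := by exact_mod_cast (by omega : 0 < N)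
  have hv : (0 : ℝ) < k.val := by exact_mod_cast hkv
  have hv' : (0 : ℝ) < (N : ℝ) - k.val := by
    have : (k.val : ℝ) < N := by exact_mod_cast hkN
    linarith
  obtain ⟨z, hz⟩ : ∃ z : ℂ, z = stdAddChar (N := N) k := ⟨_, rfl⟩
  have hpow : ∀ n : ℕ, stdAddChar (N := N) (k * n) = z ^ n := by
    intro n
    rw [hz, ← AddChar.map_nsmul_eq_pow, nsmul_eq_mul, mul_comm]
  simp only [hpow]
  have hzval : z = Complex.exp (((2 * π * k.val / N : ℝ) : ℂ) * Complex.I) := by
    rw [hz, ZMod.stdAddChar_apply, ZMod.toCircle_apply]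
    congr 1
    push_cast
    ring
  have hz1 : ‖z‖ = 1 := by rw [hzval, Complex.norm_exp_ofReal_mul_I]
  -- |z - 1| = 2 sin (π k / N)
  obtain ⟨θ, hθ⟩ : ∃ θ : ℝ, θ = π * k.val / N := ⟨_, rfl⟩
  have hθ0 : 0 < θ := by rw [hθ]; positivity
  have hθπ : θ < π := by
    rw [hθ, div_lt_iff₀ hN]
    have : (k.val : ℝ) < N := by exact_mod_cast hkN
    nlinarith [Real.pi_pos]
  have hsin : 0 < Real.sin θ := Real.sin_pos_of_pos_of_lt_pi hθ0 hθπ
  have hnorm : ‖z - 1‖ = 2 * Real.sin θ := by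
    have h2 : (2 * π * k.val / N : ℝ) = 2 * θ := by rw [hθ]; ring
    rw [hzval, h2, mul_comm, Complex.norm_exp_I_mul_ofReal_sub_one]
    rw [show 2 * θ / 2 = θ by ring, Real.norm_eq_abs, abs_of_pos (by positivity)]
  have hz_ne : z ≠ 1 := by
    intro h
    rw [h, sub_self, norm_zero] at hnorm
    linarith
  have hgeom : ‖∑ n ∈ range M, z ^ n‖ ≤ 1 / Real.sin θ := by
    rw [geom_sum_eq hz_ne, norm_div, hnorm]
    have h3 : ‖z ^ M - 1‖ ≤ 2 := by
      calc ‖z ^ M - 1‖ ≤ ‖z ^ M‖ + ‖(1 : ℂ)‖ := norm_sub_le _ _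
        _ = 2 := by rw [norm_pow, hz1, one_pow, norm_one]; norm_num
    rw [div_le_div_iff₀ (by positivity) hsin]
    nlinarith
  refine le_trans hgeom ?_
  have hsum_nonneg1 : 0 ≤ 1 / (k.val : ℝ) := by positivity
  have hsum_nonneg2 : 0 ≤ 1 / ((N : ℝ) - k.val) := by positivity
  rcases le_total θ (π / 2) with h | h
  · have h4 := Real.mul_le_sin hθ0.le h
    have h5 : 1 / Real.sin θ ≤ (N : ℝ) / 2 * (1 / (k.val : ℝ)) := by
      have h6 : 0 < 2 / π * θ := by positivity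
      calc 1 / Real.sin θ ≤ 1 / (2 / π * θ) := one_div_le_one_div_of_le h6 h4
        _ = (N : ℝ) / 2 * (1 / (k.val : ℝ)) := by
            rw [hθ]
            field_simp
    have : 0 ≤ (N : ℝ) / 2 * (1 / ((N : ℝ) - k.val)) := by positivity
    rw [mul_add]; linarith
  · have h4 := Real.mul_le_sin (x := π - θ) (by linarith) (by linarith)
    rw [Real.sin_pi_sub] at h4
    have h5 : 1 / Real.sin θ ≤ (N : ℝ) / 2 * (1 / ((N : ℝ) - k.val)) := by
      have h6 : 0 < 2 / π * (π - θ) := by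
        have : 0 < π - θ := by linarith
        positivity
      calc 1 / Real.sin θ ≤ 1 / (2 / π * (π - θ)) := one_div_le_one_div_of_le h6 h4
        _ = (N : ℝ) / 2 * (1 / ((N : ℝ) - k.val)) := by
            have h7 : π - θ = π * ((N : ℝ) - k.val) / N := by
              rw [hθ]; field_simp
            rw [h7]
            field_simp
    have : 0 ≤ (N : ℝ) / 2 * (1 / (k.val : ℝ)) := by positivity
    rw [mul_add]; linarith

lemma sum_zmod_val {N : ℕ} [NeZero N] (f : ℕ → ℝ) :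
    ∑ k ∈ (Finset.univ : Finset (ZMod N)).erase 0, f k.val = ∑ i ∈ Finset.Ico 1 N, f i := by
  apply Finset.sum_nbij (fun k : ZMod N => k.val)
  · intro k hk
    rw [Finset.mem_erase] at hk
    rw [Finset.mem_Ico]
    exact ⟨Nat.pos_of_ne_zero (fun h => hk.1 ((ZMod.val_eq_zero k).1 h)), ZMod.val_lt k⟩
  · intro a _ b _ h
    exact ZMod.val_injective N h
  · intro i hi
    rw [Finset.mem_coe, Finset.mem_Ico] at hi
    refine ⟨(i : ZMod N), ?_, ?_⟩
    · rw [Finset.mem_coe, Finset.mem_erase]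
      refine ⟨?_, Finset.mem_univ _⟩
      intro h
      have := congrArg ZMod.val h
      rw [ZMod.val_natCast, ZMod.val_zero, Nat.mod_eq_of_lt hi.2] at this
      omega
    · simp only
      rw [ZMod.val_natCast, Nat.mod_eq_of_lt hi.2]
  · intro _ _
    rfl

lemma harmonic_Ico (N : ℕ) : ∑ i ∈ Finset.Ico 1 N, (1 : ℝ) / i ≤ 1 + Real.log N := by
  have h1 : ∑ i ∈ Finset.Ico 1 N, (1 : ℝ) / i ≤ ∑ i ∈ Finset.Icc 1 N, (1 : ℝ) / i := by
    apply Finset.sum_le_sum_of_subset_of_nonneg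
    · intro i hi
      rw [Finset.mem_Ico] at hi
      rw [Finset.mem_Icc]; omega
    · intro i _ _
      positivity
  have h2 := harmonic_le_one_add_log N
  have h3 : ((harmonic N : ℚ) : ℝ) = ∑ i ∈ Finset.Icc 1 N, (1 : ℝ) / i := by
    rw [harmonic_eq_sum_Icc]
    push_cast
    apply Finset.sum_congr rfl
    intro i _
    rw [one_div]
  rw [h3] at h2
  linarith

lemma harmonic_Ico' (N : ℕ) :
    ∑ i ∈ Finset.Ico 1 N, (1 : ℝ) / ((N : ℝ) - i) ≤ 1 + Real.log N := by
  have : ∑ i ∈ Finset.Ico 1 N, (1 : ℝ) / ((N : ℝ) - i) = ∑ i ∈ Finset.Ico 1 N, (1 : ℝ) / i := by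
    apply Finset.sum_nbij' (fun i => N - i) (fun i => N - i)
    · intro i hi; rw [Finset.mem_Ico] at *; omega
    · intro i hi; rw [Finset.mem_Ico] at *; omega
    · intro i hi; rw [Finset.mem_Ico] at hi; omega
    · intro i hi; rw [Finset.mem_Ico] at hi; omega
    · intro i hi
      rw [Finset.mem_Ico] at hi
      rw [Nat.cast_sub (by omega)]
  rw [this]
  exact harmonic_Ico N

/-- Pólya–Vinogradov for the Jacobi symbol of odd squarefree modulus. -/
theorem PV {s : ℕ} (hs : 1 < s) (hodd : Odd s) (hsq : Squarefree s) (M : ℕ) :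
    |∑ n ∈ range M, ((jacobiSym (n : ℤ) s : ℤ) : ℝ)| ≤ Real.sqrt s * (1 + Real.log s) := by
  have hne : NeZero s := ⟨by omega⟩
  obtain ⟨χ, hχ⟩ : ∃ χ, χ = jac s := ⟨_, rfl⟩
  have hprim : χ.IsPrimitive := by rw [hχ]; exact jac_primitive hodd hsq
  have hquad : MulChar.IsQuadratic χ := by rw [hχ]; exact jac_quadratic s
  have hs0 : (0 : ℝ) < s := by exact_mod_cast (by omega : 0 < s)
  have hG := gauss_norm hprim hquad
  have hinv : χ⁻¹ = χ := hquad.inv
  have hF : ∀ k, ‖ZMod.dft χ k‖ ≤ Real.sqrt s := by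
    intro k
    rw [DirichletCharacter.IsPrimitive.fourierTransform_eq_inv_mul_gaussSum hprim k, norm_mul, hG]
    have h1 : ‖χ⁻¹ (-k)‖ ≤ 1 := DirichletCharacter.norm_le_one _ _
    nlinarith [Real.sqrt_nonneg (s : ℝ)]
  have hF0 : ZMod.dft χ 0 = 0 := by
    rw [DirichletCharacter.IsPrimitive.fourierTransform_eq_inv_mul_gaussSum hprim 0, neg_zero,
      hinv, DirichletCharacter.map_zero' χ (by omega), zero_mul]
  have hval : ∀ n : ℕ, ((jacobiSym (n : ℤ) s : ℤ) : ℂ) =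
      (s : ℂ)⁻¹ * ∑ k : ZMod s, stdAddChar (N := s) (k * n) * ZMod.dft χ k := by
    intro n
    rw [← jac_natCast, ← hχ]
    have h1 : (χ : ZMod s → ℂ) = ZMod.dft.symm (ZMod.dft (χ : ZMod s → ℂ)) :=
      (LinearEquiv.symm_apply_apply ZMod.dft _).symm
    conv_lhs => rw [h1]
    rw [ZMod.invDFT_apply]
    simp only [smul_eq_mul]
  have hsum : ((∑ n ∈ range M, ((jacobiSym (n : ℤ) s : ℤ) : ℝ) : ℝ) : ℂ) =
      (s : ℂ)⁻¹ * ∑ k : ZMod s, (∑ n ∈ range M, stdAddChar (N := s) (k * n)) * ZMod.dft χ k := by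
    push_cast
    rw [Finset.sum_congr rfl (fun n _ => hval n), ← Finset.mul_sum, Finset.sum_comm]
    congr 1
    apply Finset.sum_congr rfl
    intro k _
    rw [Finset.sum_mul]
  have hnorm : |∑ n ∈ range M, ((jacobiSym (n : ℤ) s : ℤ) : ℝ)| =
      ‖((∑ n ∈ range M, ((jacobiSym (n : ℤ) s : ℤ) : ℝ) : ℝ) : ℂ)‖ := by
    rw [Complex.norm_real, Real.norm_eq_abs]
  rw [hnorm, hsum, norm_mul, norm_inv, Complex.norm_natCast]
  have hbound : ‖∑ k : ZMod s, (∑ n ∈ range M, stdAddChar (N := s) (k * n)) * ZMod.dft χ k‖ ≤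
      Real.sqrt s * ((s : ℝ) * (1 + Real.log s)) := by
    rw [← Finset.add_sum_erase Finset.univ _ (Finset.mem_univ (0 : ZMod s)), hF0, mul_zero, zero_add]
    refine le_trans (norm_sum_le _ _) ?_
    have hterm : ∀ k ∈ (Finset.univ : Finset (ZMod s)).erase 0,
        ‖(∑ n ∈ range M, stdAddChar (N := s) (k * n)) * ZMod.dft χ k‖ ≤
        Real.sqrt s * ((s : ℝ) / 2 * (1 / (k.val : ℝ) + 1 / ((s : ℝ) - k.val))) := by
      intro k hk
      rw [Finset.mem_erase] at hk
      rw [norm_mul, mul_comm]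
      have := geom_bound k hk.1 M
      gcongr
      exact hF k
    refine le_trans (Finset.sum_le_sum hterm) ?_
    rw [← Finset.mul_sum]
    apply mul_le_mul_of_nonneg_left _ (Real.sqrt_nonneg _)
    rw [← Finset.mul_sum, sum_zmod_val (fun i => 1 / (i : ℝ) + 1 / ((s : ℝ) - i)),
      Finset.sum_add_distrib]
    have h1 := harmonic_Ico s
    have h2 := harmonic_Ico' s
    nlinarith
  calc (s : ℝ)⁻¹ * ‖∑ k : ZMod s, (∑ n ∈ range M, stdAddChar (N := s) (k * n)) * ZMod.dft χ k‖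
      ≤ (s : ℝ)⁻¹ * (Real.sqrt s * ((s : ℝ) * (1 + Real.log s))) := by gcongr
    _ = Real.sqrt s * (1 + Real.log s) := by
        field_simp

end

end Pool.Agent.Lib.MP0b15c0
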