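import Pool.Agent.Lib.MP_0b15c0_nt.Smooth

set_option autoImplicit false

namespace Pool.Agent.Lib.MP0b15c0

noncomputable section

open Finset Real ArithmeticFunction

/-- Abel summation comparison: nonnegative partial sums and decreasing weights. -/
lemma abel_nonneg (a w : ℕ → ℝ) (hw : ∀ k, 1 ≤ k → w (k + 1) ≤ w k) 
    (hD : ∀ n, 0 ≤ ∑ k ∈ Finset.Icc 1 n, a k) :
    ∀ n, (∑ k ∈ Finset.Icc 1 n, a k) * w (n + 1) ≤ ∑ k ∈ Finset.Icc 1 n, a k * w k := by
  intro n
  induction n with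
  | zero => simp
  | succ n ih =>
    rw [Finset.sum_Icc_succ_top (by omega), Finset.sum_Icc_succ_top (by omega)]
    have h1 := hD (n + 1)
    rw [Finset.sum_Icc_succ_top (by omega)] at h1
    have h2 := hw (n + 1) (by omega)
    have h3 : (∑ k ∈ Finset.Icc 1 n, a k + a (n + 1)) * w (n + 1 + 1) ≤
        (∑ k ∈ Finset.Icc 1 n, a k + a (n + 1)) * w (n + 1) := mul_le_mul_of_nonneg_left h2 h1
    linarith [h3, ih, add_mul (∑ k ∈ Finset.Icc 1 n, a k) (a (n + 1)) (w (n + 1))]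

/-- increment of `k log 2 - log (k+1)` -/
def li (k : ℕ) : ℝ := Real.log 2 - (Real.log ((k : ℝ) + 1) - Real.log k)

lemma sum_li (n : ℕ) : ∑ k ∈ Finset.Icc 1 n, li k = n * Real.log 2 - Real.log (n + 1) := by
  induction n with
  | zero => simp
  | succ n ih =>
    rw [Finset.sum_Icc_succ_top (by omega), ih]
    unfold li
    push_cast
    ring

lemma S_ge_li (N : ℕ) : ∑ k ∈ Finset.Icc 1 N, li k / Real.sqrt k ≤ S N := by
  have h := abel_nonneg (fun k => Λ k - li k) (fun k => 1 / Real.sqrt k) ?_ ?_ N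
  · have h0 : 0 ≤ (∑ k ∈ Finset.Icc 1 N, (Λ k - li k)) * (1 / Real.sqrt ((N + 1 : ℕ) : ℝ)) := by
      apply mul_nonneg _ (by positivity)
      rw [Finset.sum_sub_distrib, sum_li]
      have := Chebyshev.psi_ge N
      rw [Chebyshev.psi_eq_sum_Icc, Nat.floor_natCast] at this
      have h2 : ∑ k ∈ Finset.Icc 0 N, Λ k = ∑ k ∈ Finset.Icc 1 N, Λ k := by
        rw [← Finset.sum_subset (s₁ := Finset.Icc 1 N) (s₂ := Finset.Icc 0 N)]
        · intro x hx
          rw [Finset.mem_Icc] at *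
          omega
        · intro x hx hx'
          rw [Finset.mem_Icc] at hx hx'
          have : x = 0 := by omega
          rw [this]
          simp
      rw [h2] at this
      linarith
    have h1 : 0 ≤ ∑ k ∈ Finset.Icc 1 N, (Λ k - li k) * (1 / Real.sqrt k) := le_trans h0 h
    have h2 : ∑ k ∈ Finset.Icc 1 N, (Λ k - li k) * (1 / Real.sqrt k) =
        S N - ∑ k ∈ Finset.Icc 1 N, li k / Real.sqrt k := by
      unfold S
      rw [← Finset.sum_sub_distrib]
      apply Finset.sum_congr rfl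
      intro k _
      ring
    rw [h2] at h1
    linarith
  · intro k hk
    have hk' : (0 : ℝ) < k := by exact_mod_cast hk
    apply one_div_le_one_div_of_le (Real.sqrt_pos.2 hk')
    apply Real.sqrt_le_sqrt
    push_cast
    linarith
  · intro n
    rw [Finset.sum_sub_distrib, sum_li]
    have := Chebyshev.psi_ge n
    rw [Chebyshev.psi_eq_sum_Icc, Nat.floor_natCast] at this
    have h2 : ∑ k ∈ Finset.Icc 0 n, Λ k = ∑ k ∈ Finset.Icc 1 n, Λ k := by
      rw [← Finset.sum_subset (s₁ := Finset.Icc 1 n) (s₂ := Finset.Icc 0 n)]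
      · intro x hx
        rw [Finset.mem_Icc] at *
        omega
      · intro x hx hx'
        rw [Finset.mem_Icc] at hx hx'
        have : x = 0 := by omega
        rw [this]
        simp
    rw [h2] at this
    linarith

/-- `k^{-3/2} ≤ 2/sqrt(k-1/2) - 2/sqrt(k+1/2)` -/
lemma three_halves {k : ℝ} (hk : 1 ≤ k) : 1 / k / Real.sqrt k ≤
    2 / Real.sqrt (k - 1 / 2) - 2 / Real.sqrt (k + 1 / 2) := by
  have h1 : 0 < Real.sqrt (k - 1 / 2) := Real.sqrt_pos.2 (by linarith)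
  have h2 : 0 < Real.sqrt (k + 1 / 2) := Real.sqrt_pos.2 (by linarith)
  have h3 : 0 < Real.sqrt k := Real.sqrt_pos.2 (by linarith)
  have s1 : Real.sqrt (k - 1 / 2) ^ 2 = k - 1 / 2 := Real.sq_sqrt (by linarith)
  have s2 : Real.sqrt (k + 1 / 2) ^ 2 = k + 1 / 2 := Real.sq_sqrt (by linarith)
  have s3 : Real.sqrt k ^ 2 = k := Real.sq_sqrt (by linarith)
  generalize Real.sqrt (k - 1 / 2) = a at *
  generalize Real.sqrt (k + 1 / 2) = b at *
  generalize Real.sqrt k = c at *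
  have hab : a * b ≤ k := by nlinarith [sq_nonneg (a - b)]
  have hsum : a + b ≤ 2 * c := by
    apply le_of_sq_le_sq _ (by positivity)
    nlinarith [sq_nonneg (a - b)]
  have hdiff : (b - a) * (b + a) = 1 := by nlinarith
  have e : 2 / a - 2 / b = 2 / (a * b * (a + b)) := by
    have : a + b ≠ 0 := by positivity
    field_simp
    nlinarith
  rw [e, div_div, div_le_div_iff₀ (by positivity) (by positivity)]
  nlinarith [mul_le_mul hab hsum (by positivity) (by linarith)]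

lemma sqrt_diff {k : ℝ} (hk : 1 ≤ k) : 2 * (Real.sqrt (k + 1) - Real.sqrt k) ≤ 1 / Real.sqrt k := by
  have h1 : 0 < Real.sqrt k := Real.sqrt_pos.2 (by linarith)
  have s1 : Real.sqrt k ^ 2 = k := Real.sq_sqrt (by linarith)
  have s2 : Real.sqrt (k + 1) ^ 2 = k + 1 := Real.sq_sqrt (by linarith)
  have h2 : 0 ≤ Real.sqrt (k + 1) := Real.sqrt_nonneg _
  generalize Real.sqrt k = a at *
  generalize Real.sqrt (k + 1) = b at *
  rw [le_div_iff₀ h1]
  nlinarith [sq_nonneg (a - b)]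

lemma sum_li_ge (N : ℕ) (hN : 1 ≤ N) :
    2 * Real.log 2 * Real.sqrt ((N : ℝ) + 1) - 2 * Real.log 2 * Real.sqrt 2
      + 2 / Real.sqrt ((N : ℝ) + 1 / 2) - 2 / Real.sqrt (3 / 2) ≤
    ∑ k ∈ Finset.Icc 1 N, li k / Real.sqrt k := by
  induction N, hN using Nat.le_induction with
  | base =>
    simp only [Finset.Icc_self, Finset.sum_singleton, Nat.cast_one, Real.sqrt_one, div_one]
    unfold li
    norm_num
  | succ n hn ih =>
    rw [Finset.sum_Icc_succ_top (by omega)]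
    have hn' : (1 : ℝ) ≤ (n : ℝ) := by exact_mod_cast hn
    have hk : (1 : ℝ) ≤ ((n + 1 : ℕ) : ℝ) := by push_cast; linarith
    have h1 := three_halves hk
    have h2 := sqrt_diff hk
    have hli : Real.log 2 - 1 / ((n + 1 : ℕ) : ℝ) ≤ li (n + 1) := by
      unfold li
      have : Real.log (((n + 1 : ℕ) : ℝ) + 1) - Real.log ((n + 1 : ℕ) : ℝ) ≤ 1 / ((n + 1 : ℕ) : ℝ) := by
        rw [← Real.log_div (by positivity) (by positivity)]
        have h3 := Real.log_le_sub_one_of_pos (x := (((n + 1 : ℕ) : ℝ) + 1) / ((n + 1 : ℕ) : ℝ))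
          (by positivity)
        refine le_trans h3 (le_of_eq ?_)
        field_simp
        ring
      linarith
    have hsq : 0 < Real.sqrt ((n + 1 : ℕ) : ℝ) := Real.sqrt_pos.2 (by linarith)
    have h4 : (Real.log 2 - 1 / ((n + 1 : ℕ) : ℝ)) / Real.sqrt ((n + 1 : ℕ) : ℝ) ≤
        li (n + 1) / Real.sqrt ((n + 1 : ℕ) : ℝ) := by gcongr
    have h5 : (Real.log 2 - 1 / ((n + 1 : ℕ) : ℝ)) / Real.sqrt ((n + 1 : ℕ) : ℝ) =
        Real.log 2 * (1 / Real.sqrt ((n + 1 : ℕ) : ℝ)) - 1 / ((n + 1 : ℕ) : ℝ) / Real.sqrt ((n + 1 : ℕ) : ℝ) := by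
      ring
    rw [h5] at h4
    have hlog2 : 0 ≤ Real.log 2 := Real.log_nonneg (by norm_num)
    have h6 := mul_le_mul_of_nonneg_left h2 hlog2
    have e1 : ((n + 1 : ℕ) : ℝ) - 1 / 2 = (n : ℝ) + 1 / 2 := by push_cast; ring
    have e2 : ((n + 1 : ℕ) : ℝ) = (n : ℝ) + 1 := by push_cast; ring
    rw [e1] at h1
    rw [e2] at h1 h4 h6 ⊢
    linarith

lemma S_ge (N : ℕ) (hN : 1 ≤ N) : 1386 / 1000 * Real.sqrt ((N : ℝ) + 1) - 3 - 2 / 3 ≤ S N := by
  have h1 := S_ge_li N
  have h2 := sum_li_ge N hN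
  have hs : 1 ≤ Real.sqrt ((N : ℝ) + 1) := Real.one_le_sqrt.2 (by linarith [(Nat.cast_nonneg N : (0 : ℝ) ≤ N)])
  have l1 := Real.log_two_gt_d9
  have l2 := Real.log_two_lt_d9
  have s2 : Real.sqrt 2 ≤ 1415 / 1000 := by
    apply Real.sqrt_le_iff.2; norm_num
  have s32 : 12 / 10 ≤ Real.sqrt (3 / 2) := by
    apply Real.le_sqrt_of_sq_le; norm_num
  have h3 : 2 / Real.sqrt (3 / 2) ≤ 5 / 3 := by
    rw [div_le_div_iff₀ (by linarith) (by norm_num)]
    linarith
  have h4 : 0 ≤ 2 / Real.sqrt ((N : ℝ) + 1 / 2) := by positivity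
  have h5 : Real.log 2 * Real.sqrt 2 ≤ 0.6931471808 * (1415 / 1000) := by
    apply mul_le_mul l2.le s2 (Real.sqrt_nonneg _) (by norm_num)
  have h6 : 1386 / 1000 * Real.sqrt ((N : ℝ) + 1) ≤ 2 * Real.log 2 * Real.sqrt ((N : ℝ) + 1) := by
    gcongr; linarith
  linarith

end

end Pool.Agent.Lib.MP0b15c0
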