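import Mathlib

set_option autoImplicit false

namespace Pool.Agent.Lib.MP0b15c0

noncomputable section

open Finset Real ArithmeticFunction

open Classical in
/-- `N`-smooth integers in `[1, X]` -/
def A (N X : ℕ) : Finset ℕ :=
  (Finset.Icc 1 X).filter (fun m => ∀ p : ℕ, p.Prime → p ∣ m → p ≤ N)

/-- weighted von Mangoldt sum -/
def S (N : ℕ) : ℝ := ∑ d ∈ Finset.Icc 1 N, Λ d / Real.sqrt d

open Classical in
lemma mem_A {N X m : ℕ} : m ∈ A N X ↔ (1 ≤ m ∧ m ≤ X) ∧ ∀ p : ℕ, p.Prime → p ∣ m → p ≤ N := by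
  unfold A
  rw [Finset.mem_filter, Finset.mem_Icc]

open Classical in
lemma card_A_small {N X : ℕ} (h : X ≤ N) : (A N X).card = X := by
  have : A N X = Finset.Icc 1 X := by
    unfold A
    apply Finset.filter_true_of_mem
    intro m hm p hp hpm
    rw [Finset.mem_Icc] at hm
    exact le_trans (Nat.le_of_dvd (by omega) hpm) (le_trans hm.2 h)
  rw [this, Nat.card_Icc]
  omega

lemma card_mult {N X d : ℕ} (hd : d ∈ Finset.Icc 1 N) :
    (A N (X / d)).card ≤ ((A N X).filter (fun m => d ∣ m)).card := by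
  rw [Finset.mem_Icc] at hd
  apply Finset.card_le_card_of_injOn (fun m => d * m)
  · intro m hm
    have hm' := mem_A.1 (Finset.mem_coe.1 hm)
    rw [Finset.mem_coe, Finset.mem_filter, mem_A]
    refine ⟨⟨⟨?_, ?_⟩, ?_⟩, dvd_mul_right d m⟩
    · exact Nat.mul_pos (by omega) (by omega)
    · exact (Nat.mul_le_mul_left d hm'.1.2).trans (Nat.mul_div_le X d)
    · intro p hp hpm
      rcases (Nat.Prime.dvd_mul hp).1 hpm with h | h
      · exact le_trans (Nat.le_of_dvd (by omega) h) hd.2
      · exact hm'.2 p hp h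
  · intro a _ b _ hab
    exact Nat.eq_of_mul_eq_mul_left (by omega) hab

lemma key_ineq (N X : ℕ) :
    ∑ d ∈ Finset.Icc 1 N, Λ d * ((A N (X / d)).card : ℝ) ≤ ((A N X).card : ℝ) * Real.log X := by
  have h1 : ∑ m ∈ A N X, Real.log m ≤ ((A N X).card : ℝ) * Real.log X := by
    rw [← nsmul_eq_mul]
    apply Finset.sum_le_card_nsmul
    intro m hm
    have hm' := (mem_A.1 hm).1
    apply Real.log_le_log
    · exact_mod_cast (by omega : 0 < m)
    · exact_mod_cast hm'.2
  refine le_trans ?_ h1
  have h2 : ∀ m ∈ A N X, ∑ d ∈ (Finset.Icc 1 N).filter (fun d => d ∣ m), Λ d ≤ Real.log m := by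
    intro m hm
    have hm' := (mem_A.1 hm).1
    rw [← vonMangoldt_sum]
    apply Finset.sum_le_sum_of_subset_of_nonneg
    · intro d hd
      rw [Finset.mem_filter] at hd
      rw [Nat.mem_divisors]
      exact ⟨hd.2, by omega⟩
    · intro _ _ _
      exact vonMangoldt_nonneg
  refine le_trans ?_ (Finset.sum_le_sum h2)
  simp only [Finset.sum_filter]
  rw [Finset.sum_comm]
  apply Finset.sum_le_sum
  intro d hd
  rw [← Finset.sum_filter, Finset.sum_const, nsmul_eq_mul, mul_comm]
  apply mul_le_mul_of_nonneg_right _ vonMangoldt_nonneg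
  exact_mod_cast card_mult hd

/-- the inductive lower bound -/
lemma card_ge {N Y : ℕ} (_hN : 1 ≤ N) {C : ℝ} (hS : ∀ X : ℕ, N < X → X ≤ Y →
    Real.sqrt (((X : ℝ) + 1) / X) * Real.log X ≤ S N) (_hC : 0 ≤ C) :
    ∀ X : ℕ, 1 ≤ X → X ≤ Y → Real.sqrt (((X : ℝ) + 1) / 2) ≤ ((A N X).card : ℝ) := by
  intro X
  induction X using Nat.strong_induction_on with
  | _ X ih =>
    intro hX1 hXY
    rcases Nat.lt_or_ge N X with hNX | hNX
    · have hkey := key_ineq N X
      have hXpos : (0 : ℝ) < X := by exact_mod_cast hX1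
      have hX2 : 2 ≤ X := by omega
      have hlog : 0 < Real.log X := Real.log_pos (by exact_mod_cast hX2)
      have hterm : ∀ d ∈ Finset.Icc 1 N, Real.sqrt ((X : ℝ) / 2) * (Λ d / Real.sqrt d) ≤
          Λ d * ((A N (X / d)).card : ℝ) := by
        intro d hd
        rw [Finset.mem_Icc] at hd
        have hd0 : (0 : ℝ) < d := by exact_mod_cast (by omega : 0 < d)
        rcases Nat.lt_or_ge d 2 with hd2 | hd2
        · have : d = 1 := by omega
          subst this
          simp
        · have hlt : X / d < X := Nat.div_lt_self (by omega) (by omega)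
          have hge : 1 ≤ X / d := Nat.div_pos (by omega) (by omega)
          have h1 := ih (X / d) hlt hge (by omega)
          have h2 : (X : ℝ) / d ≤ ((X / d : ℕ) : ℝ) + 1 := by
            rw [div_le_iff₀ hd0]
            have := Nat.lt_mul_div_succ X (by omega : 0 < d)
            have h3 : (X : ℝ) < (d : ℝ) * (((X / d : ℕ) : ℝ) + 1) := by exact_mod_cast this
            linarith
          have h3 : Real.sqrt ((X : ℝ) / 2) / Real.sqrt d ≤ Real.sqrt ((((X / d : ℕ) : ℝ) + 1) / 2) := by
            rw [← Real.sqrt_div (by positivity)]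
            apply Real.sqrt_le_sqrt
            rw [div_right_comm]
            linarith
          calc Real.sqrt ((X : ℝ) / 2) * (Λ d / Real.sqrt d)
              = Λ d * (Real.sqrt ((X : ℝ) / 2) / Real.sqrt d) := by ring
            _ ≤ Λ d * ((A N (X / d)).card : ℝ) := by
                apply mul_le_mul_of_nonneg_left (le_trans h3 h1) vonMangoldt_nonneg
      have hsum : Real.sqrt ((X : ℝ) / 2) * S N ≤ ((A N X).card : ℝ) * Real.log X := by
        refine le_trans ?_ hkey
        unfold S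
        rw [Finset.mul_sum]
        exact Finset.sum_le_sum hterm
      have hS' := hS X hNX hXY
      have h4 : Real.sqrt ((X : ℝ) / 2) * (Real.sqrt (((X : ℝ) + 1) / X) * Real.log X) ≤
          ((A N X).card : ℝ) * Real.log X :=
        le_trans (mul_le_mul_of_nonneg_left hS' (Real.sqrt_nonneg _)) hsum
      have h5 : Real.sqrt ((X : ℝ) / 2) * Real.sqrt (((X : ℝ) + 1) / X)
          = Real.sqrt (((X : ℝ) + 1) / 2) := by
        rw [← Real.sqrt_mul (by positivity)]
        congr 1
        field_simp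
      rw [← mul_assoc, h5] at h4
      exact le_of_mul_le_mul_right h4 hlog
    · rw [card_A_small hNX]
      apply Real.sqrt_le_iff.2
      have : (1 : ℝ) ≤ X := by exact_mod_cast hX1
      constructor
      · linarith
      · nlinarith

/-- final consequence: strong form at the top -/
lemma card_top {N X : ℕ} (hN : 1 ≤ N) (hNX : N < X) (hS : 143 / 100 * Real.log X ≤ S N)
    (hX50 : 46 ≤ X) : Real.sqrt ((X : ℝ) + 1) ≤ ((A N X).card : ℝ) := by
  have hXpos : (0 : ℝ) < X := by exact_mod_cast (by omega : 0 < X)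
  have hX50' : (46 : ℝ) ≤ X := by exact_mod_cast hX50
  have hlog : 0 < Real.log X := Real.log_pos (by linarith)
  have hcond : ∀ Z : ℕ, N < Z → Z ≤ X →
      Real.sqrt (((Z : ℝ) + 1) / Z) * Real.log Z ≤ S N := by
    intro Z hZ1 hZ2
    have hZ : (2 : ℝ) ≤ Z := by exact_mod_cast (by omega : 2 ≤ Z)
    have h1 : Real.sqrt (((Z : ℝ) + 1) / Z) ≤ 143 / 100 := by
      apply Real.sqrt_le_iff.2
      constructor
      · norm_num
      · rw [div_le_iff₀ (by linarith)]
        nlinarith
    have h2 : Real.log Z ≤ Real.log X := Real.log_le_log (by linarith) (by exact_mod_cast hZ2)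
    have h3 : 0 ≤ Real.log Z := Real.log_nonneg (by linarith)
    calc Real.sqrt (((Z : ℝ) + 1) / Z) * Real.log Z ≤ 143 / 100 * Real.log X := by gcongr
      _ ≤ S N := hS
  have hcard := card_ge hN (C := 0) hcond le_rfl
  have hkey := key_ineq N X
  have hterm : ∀ d ∈ Finset.Icc 1 N, Real.sqrt ((X : ℝ) / 2) * (Λ d / Real.sqrt d) ≤
      Λ d * ((A N (X / d)).card : ℝ) := by
    intro d hd
    rw [Finset.mem_Icc] at hd
    have hd0 : (0 : ℝ) < d := by exact_mod_cast (by omega : 0 < d)
    have hge : 1 ≤ X / d := Nat.div_pos (by omega) (by omega)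
    have h1 := hcard (X / d) hge (Nat.div_le_self X d)
    have h2 : (X : ℝ) / d ≤ ((X / d : ℕ) : ℝ) + 1 := by
      rw [div_le_iff₀ hd0]
      have := Nat.lt_mul_div_succ X (by omega : 0 < d)
      have h3 : (X : ℝ) < (d : ℝ) * (((X / d : ℕ) : ℝ) + 1) := by exact_mod_cast this
      linarith
    have h3 : Real.sqrt ((X : ℝ) / 2) / Real.sqrt d ≤ Real.sqrt ((((X / d : ℕ) : ℝ) + 1) / 2) := by
      rw [← Real.sqrt_div (by positivity)]
      apply Real.sqrt_le_sqrt
      rw [div_right_comm]
      linarith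
    calc Real.sqrt ((X : ℝ) / 2) * (Λ d / Real.sqrt d)
        = Λ d * (Real.sqrt ((X : ℝ) / 2) / Real.sqrt d) := by ring
      _ ≤ Λ d * ((A N (X / d)).card : ℝ) := by
          apply mul_le_mul_of_nonneg_left (le_trans h3 h1) vonMangoldt_nonneg
  have hsum : Real.sqrt ((X : ℝ) / 2) * S N ≤ ((A N X).card : ℝ) * Real.log X := by
    refine le_trans ?_ hkey
    unfold S
    rw [Finset.mul_sum]
    exact Finset.sum_le_sum hterm
  have h4 : Real.sqrt ((X : ℝ) / 2) * (143 / 100 * Real.log X) ≤
      ((A N X).card : ℝ) * Real.log X :=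
    le_trans (mul_le_mul_of_nonneg_left hS (Real.sqrt_nonneg _)) hsum
  rw [← mul_assoc] at h4
  have h5 := le_of_mul_le_mul_right h4 hlog
  refine le_trans ?_ h5
  have h6 : Real.sqrt ((X : ℝ) + 1) ≤ Real.sqrt ((X : ℝ) / 2 * (143 / 100) ^ 2) := by
    apply Real.sqrt_le_sqrt
    linarith
  refine le_trans h6 (le_of_eq ?_)
  rw [Real.sqrt_mul (by positivity), Real.sqrt_sq (by norm_num)]

end

end Pool.Agent.Lib.MP0b15c0
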